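import Pool.Agent.R184CA.C0

/-! Facts on `c₀`: the decomposition method. -/

namespace Pool.Agent.L0h84.RG

open Filter Topology ZeroAtInfty

section gen

variable {𝕜 : Type*} [RCLike 𝕜]
variable {A : Type*} [NormedAddCommGroup A] [NormedSpace 𝕜 A]
variable {A' : Type*} [NormedAddCommGroup A'] [NormedSpace 𝕜 A']

lemma cz_norm_le_iff (f : C₀(ℕ, A)) {C : ℝ} (hC : 0 ≤ C) : ‖f‖ ≤ C ↔ ∀ n, ‖f n‖ ≤ C := by
  rw [← ZeroAtInftyContinuousMap.norm_toBCF_eq_norm, BoundedContinuousFunction.norm_le hC]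
  rfl

lemma cz_norm_apply_le (f : C₀(ℕ, A)) (n : ℕ) : ‖f n‖ ≤ ‖f‖ :=
  (cz_norm_le_iff f (norm_nonneg _)).1 le_rfl n

lemma cz_tendsto_zero (f : C₀(ℕ, A)) : Tendsto f atTop (𝓝 0) := by
  have := f.zero_at_infty'
  rwa [cocompact_eq_cofinite, Nat.cofinite_eq_atTop] at this

/-- a null sequence as an element of `c₀(A)` -/
def cmk (f : ℕ → A) (hf : Tendsto f atTop (𝓝 0)) : C₀(ℕ, A) where
  toFun := f
  continuous_toFun := continuous_of_discreteTopology
  zero_at_infty' := by rwa [cocompact_eq_cofinite, Nat.cofinite_eq_atTop]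

@[simp] lemma cmk_apply (f : ℕ → A) (hf : Tendsto f atTop (𝓝 0)) (n : ℕ) : cmk f hf n = f n := rfl

/-- `A` is isomorphic to a complemented subspace of `A'` -/
def Cp (𝕜 : Type*) [RCLike 𝕜] (A : Type*) [NormedAddCommGroup A] [NormedSpace 𝕜 A]
    (A' : Type*) [NormedAddCommGroup A'] [NormedSpace 𝕜 A'] : Prop :=
  ∃ (i : A →L[𝕜] A') (p : A' →L[𝕜] A), ∀ a, p (i a) = a

/-- the linear equivalence behind the decomposition method -/
noncomputable def shiftLin (i : A →L[𝕜] A') (p : A' →L[𝕜] A) (h : ∀ a, p (i a) = a) :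
    (A × C₀(ℕ, A')) ≃ₗ[𝕜] C₀(ℕ, A') where
  toFun z := cmk (fun n => Nat.casesOn n (i z.1 + (z.2 0 - i (p (z.2 0))))
      (fun m => i (p (z.2 m)) + (z.2 (m + 1) - i (p (z.2 (m + 1)))))) (by
    refine (tendsto_add_atTop_iff_nat 1).1 ?_
    have h1 := cz_tendsto_zero z.2
    have h2 := (tendsto_add_atTop_iff_nat 1).2 h1
    have c1 : Continuous fun v : A' => i (p v) := i.continuous.comp p.continuous
    have h3 := (c1.tendsto 0).comp h1
    have h4 := (c1.tendsto 0).comp h2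
    have h5 := h3.add (h2.sub h4)
    simpa using h5)
  invFun w := (p (w 0), cmk (fun n => (w n - i (p (w n))) + i (p (w (n + 1)))) (by
    have h1 := cz_tendsto_zero w
    have h2 := (tendsto_add_atTop_iff_nat 1).2 h1
    have c1 : Continuous fun v : A' => i (p v) := i.continuous.comp p.continuous
    have h3 := (c1.tendsto 0).comp h1
    have h4 := (c1.tendsto 0).comp h2
    have h5 := (h1.sub h3).add h4
    simpa using h5))
  map_add' x y := by
    ext n
    cases n with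
    | zero =>
      change i (x.1 + y.1) + ((x.2 0 + y.2 0) - i (p (x.2 0 + y.2 0))) =
        (i x.1 + (x.2 0 - i (p (x.2 0)))) + (i y.1 + (y.2 0 - i (p (y.2 0))))
      simp only [map_add]; abel
    | succ m =>
      change i (p (x.2 m + y.2 m)) + ((x.2 (m+1) + y.2 (m+1)) - i (p (x.2 (m+1) + y.2 (m+1)))) =
        (i (p (x.2 m)) + (x.2 (m+1) - i (p (x.2 (m+1))))) +
        (i (p (y.2 m)) + (y.2 (m+1) - i (p (y.2 (m+1)))))
      simp only [map_add]; abel
  map_smul' c x := by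
    ext n
    cases n with
    | zero =>
      change i (c • x.1) + (c • x.2 0 - i (p (c • x.2 0))) =
        c • (i x.1 + (x.2 0 - i (p (x.2 0))))
      simp only [map_smul, smul_add, smul_sub]
    | succ m =>
      change i (p (c • x.2 m)) + (c • x.2 (m+1) - i (p (c • x.2 (m+1)))) =
        c • (i (p (x.2 m)) + (x.2 (m+1) - i (p (x.2 (m+1)))))
      simp only [map_smul, smul_add, smul_sub]
  left_inv x := by
    refine Prod.ext ?_ ?_
    · change p (i x.1 + (x.2 0 - i (p (x.2 0)))) = x.1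
      rw [map_add, map_sub, h, h, sub_self, add_zero]
    · ext n
      cases n with
      | zero =>
        change (i x.1 + (x.2 0 - i (p (x.2 0))) - i (p (i x.1 + (x.2 0 - i (p (x.2 0)))))) +
          i (p (i (p (x.2 0)) + (x.2 1 - i (p (x.2 1))))) = x.2 0
        simp only [map_add, map_sub, h]
        abel
      | succ m =>
        change (i (p (x.2 m)) + (x.2 (m+1) - i (p (x.2 (m+1)))) -
          i (p (i (p (x.2 m)) + (x.2 (m+1) - i (p (x.2 (m+1))))))) +
          i (p (i (p (x.2 (m+1))) + (x.2 (m+2) - i (p (x.2 (m+2)))))) = x.2 (m+1)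
        simp only [map_add, map_sub, h]
        abel
  right_inv w := by
    ext n
    cases n with
    | zero =>
      change i (p (w 0)) + ((w 0 - i (p (w 0)) + i (p (w 1))) -
        i (p (w 0 - i (p (w 0)) + i (p (w 1))))) = w 0
      simp only [map_add, map_sub, h]
      abel
    | succ m =>
      change i (p (w m - i (p (w m)) + i (p (w (m+1))))) + ((w (m+1) - i (p (w (m+1))) +
        i (p (w (m+2)))) - i (p (w (m+1) - i (p (w (m+1))) + i (p (w (m+2)))))) = w (m+1)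
      simp only [map_add, map_sub, h]
      abel

/-- `A × c₀(A') ≃ c₀(A')` if `A` is complemented in `A'` -/
theorem shift_iso (h : Cp 𝕜 A A') : Nonempty ((A × C₀(ℕ, A')) ≃L[𝕜] C₀(ℕ, A')) := by
  obtain ⟨i, p, h⟩ := h
  have hip : ∀ v, ‖i (p v)‖ ≤ ‖i‖ * ‖p‖ * ‖v‖ := fun v => by
    calc ‖i (p v)‖ ≤ ‖i‖ * ‖p v‖ := i.le_opNorm _
      _ ≤ ‖i‖ * (‖p‖ * ‖v‖) := by gcongr; exact p.le_opNorm v
      _ = _ := by ring
  refine ⟨(shiftLin i p h).toContinuousLinearEquivOfBounds (‖i‖ + 1 + 2 * (‖i‖ * ‖p‖))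
    (‖p‖ + 1 + 2 * (‖i‖ * ‖p‖)) ?_ ?_⟩
  · intro z
    rw [cz_norm_le_iff _ (by positivity)]
    have hz1 : ‖z.1‖ ≤ ‖z‖ := norm_fst_le z
    have hz2 : ‖z.2‖ ≤ ‖z‖ := norm_snd_le z
    have hz3 : ∀ n, ‖z.2 n‖ ≤ ‖z‖ := fun n => (cz_norm_apply_le z.2 n).trans hz2
    have hz4 : ∀ n, ‖i (p (z.2 n))‖ ≤ ‖i‖ * ‖p‖ * ‖z‖ := fun n =>
      (hip _).trans (by gcongr; exact hz3 n)
    have hz5 : 0 ≤ ‖i‖ * ‖z‖ := by positivity
    have hz6 : 0 ≤ ‖i‖ * ‖p‖ * ‖z‖ := by positivity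
    intro n
    cases n with
    | zero =>
      change ‖i z.1 + (z.2 0 - i (p (z.2 0)))‖ ≤ _
      have a1 : ‖i z.1‖ ≤ ‖i‖ * ‖z‖ := (i.le_opNorm _).trans (by gcongr)
      have a2 := norm_add_le (i z.1) (z.2 0 - i (p (z.2 0)))
      have a3 := norm_sub_le (z.2 0) (i (p (z.2 0)))
      have a4 := hz3 0
      have a5 := hz4 0
      calc _ ≤ ‖i‖ * ‖z‖ + (‖z‖ + ‖i‖ * ‖p‖ * ‖z‖) := by linarith
        _ ≤ _ := by nlinarith
    | succ m =>
      change ‖i (p (z.2 m)) + (z.2 (m+1) - i (p (z.2 (m+1))))‖ ≤ _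
      have a2 := norm_add_le (i (p (z.2 m))) (z.2 (m+1) - i (p (z.2 (m+1))))
      have a3 := norm_sub_le (z.2 (m+1)) (i (p (z.2 (m+1))))
      have a4 := hz3 (m+1)
      have a5 := hz4 (m+1)
      have a6 := hz4 m
      calc _ ≤ ‖i‖ * ‖p‖ * ‖z‖ + (‖z‖ + ‖i‖ * ‖p‖ * ‖z‖) := by linarith
        _ ≤ _ := by nlinarith
  · intro w
    have hw3 : ∀ n, ‖w n‖ ≤ ‖w‖ := fun n => cz_norm_apply_le w n
    have hw4 : ∀ n, ‖i (p (w n))‖ ≤ ‖i‖ * ‖p‖ * ‖w‖ := fun n =>
      (hip _).trans (by gcongr; exact hw3 n)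
    have hz5 : 0 ≤ ‖p‖ * ‖w‖ := by positivity
    have hz6 : 0 ≤ ‖i‖ * ‖p‖ * ‖w‖ := by positivity
    have hw0 : 0 ≤ ‖w‖ := norm_nonneg w
    rw [Prod.norm_def]
    refine max_le ?_ ?_
    · change ‖p (w 0)‖ ≤ _
      have a1 : ‖p (w 0)‖ ≤ ‖p‖ * ‖w‖ := (p.le_opNorm _).trans (by gcongr; exact hw3 0)
      calc _ ≤ ‖p‖ * ‖w‖ := a1
        _ ≤ _ := by nlinarith
    · refine (cz_norm_le_iff _ (by positivity)).2 fun n => ?_
      change ‖(w n - i (p (w n))) + i (p (w (n + 1)))‖ ≤ _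
      have a2 := norm_add_le (w n - i (p (w n))) (i (p (w (n + 1))))
      have a3 := norm_sub_le (w n) (i (p (w n)))
      have a4 := hw3 n
      have a5 := hw4 n
      have a6 := hw4 (n + 1)
      calc _ ≤ (‖w‖ + ‖i‖ * ‖p‖ * ‖w‖) + ‖i‖ * ‖p‖ * ‖w‖ := by linarith
        _ ≤ _ := by nlinarith

/-- the splitting of `c₀(A)` -/
noncomputable def splitLin (𝕜 : Type*) [RCLike 𝕜] (A : Type*) [NormedAddCommGroup A]
    [NormedSpace 𝕜 A] : C₀(ℕ, A) ≃ₗ[𝕜] C₀(ℕ, A) × C₀(ℕ, A) where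
  toFun f := (cmk (fun n => f (2 * n)) ((cz_tendsto_zero f).comp
      (tendsto_atTop_mono (fun n => (by omega : n ≤ 2 * n)) tendsto_id)),
    cmk (fun n => f (2 * n + 1)) ((cz_tendsto_zero f).comp
      (tendsto_atTop_mono (fun n => (by omega : n ≤ 2 * n + 1)) tendsto_id)))
  invFun q := cmk (fun n => if n % 2 = 0 then q.1 (n / 2) else q.2 (n / 2)) (by
    have hd : Tendsto (fun n : ℕ => n / 2) atTop atTop := by
      refine tendsto_atTop.2 fun b => ?_
      filter_upwards [eventually_ge_atTop (2 * b)] with n hn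
      omega
    have h1 := (cz_tendsto_zero q.1).comp hd
    have h2 := (cz_tendsto_zero q.2).comp hd
    exact (h1.mono_left inf_le_left).if (h2.mono_left inf_le_left))
  map_add' f g := rfl
  map_smul' c f := rfl
  left_inv f := by
    ext n
    change (if n % 2 = 0 then f (2 * (n / 2)) else f (2 * (n / 2) + 1)) = f n
    split_ifs with h
    · congr 1; omega
    · congr 1; omega
  right_inv q := by
    refine Prod.ext ?_ ?_
    · ext n
      change (if (2 * n) % 2 = 0 then q.1 ((2 * n) / 2) else q.2 ((2 * n) / 2)) = q.1 n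
      rw [if_pos (by omega)]
      congr 1; omega
    · ext n
      change (if (2 * n + 1) % 2 = 0 then q.1 ((2 * n + 1) / 2) else q.2 ((2 * n + 1) / 2)) = q.2 n
      rw [if_neg (by omega)]
      congr 1; omega

theorem split_iso (𝕜 : Type*) [RCLike 𝕜] (A : Type*) [NormedAddCommGroup A] [NormedSpace 𝕜 A] :
    Nonempty (C₀(ℕ, A) ≃L[𝕜] C₀(ℕ, A) × C₀(ℕ, A)) := by
  refine ⟨(splitLin 𝕜 A).toContinuousLinearEquivOfBounds 1 1 ?_ ?_⟩
  · intro f
    rw [one_mul, Prod.norm_def]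
    refine max_le ?_ ?_
    · rw [cz_norm_le_iff _ (norm_nonneg _)]
      exact fun n => cz_norm_apply_le f _
    · rw [cz_norm_le_iff _ (norm_nonneg _)]
      exact fun n => cz_norm_apply_le f _
  · intro q
    rw [one_mul, cz_norm_le_iff _ (norm_nonneg _)]
    intro n
    change ‖(if n % 2 = 0 then q.1 (n / 2) else q.2 (n / 2))‖ ≤ ‖q‖
    split_ifs with h
    · exact (cz_norm_apply_le q.1 _).trans (norm_fst_le q)
    · exact (cz_norm_apply_le q.2 _).trans (norm_snd_le q)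

lemma cz_tendsto_iff (f : ℕ → A) : Tendsto f atTop (𝓝 0) ↔ ∀ ε > 0, {n | ε ≤ ‖f n‖}.Finite := by
  rw [← Nat.cofinite_eq_atTop]
  constructor
  · intro h ε hε
    have h1 : ∀ᶠ n in cofinite, ‖f n‖ < ε := by
      have h2 := h.norm
      rw [norm_zero] at h2
      exact h2.eventually (gt_mem_nhds hε)
    have h3 := eventually_cofinite.1 h1
    simpa using h3
  · intro h
    rw [tendsto_zero_iff_norm_tendsto_zero, Metric.tendsto_nhds]
    intro ε hε
    refine eventually_cofinite.2 ?_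
    refine (h ε hε).subset fun n hn => ?_
    rw [Set.mem_ofPred_eq, dist_zero_right, norm_norm, not_lt] at hn
    exact hn

/-- double sequences -/
noncomputable def dblLin (𝕜 : Type*) [RCLike 𝕜] (A : Type*) [NormedAddCommGroup A]
    [NormedSpace 𝕜 A] : C₀(ℕ, C₀(ℕ, A)) ≃ₗ[𝕜] C₀(ℕ, A) where
  toFun f := cmk (fun n => f n.unpair.1 n.unpair.2) (by
    rw [cz_tendsto_iff]
    intro ε hε
    have h1 := (cz_tendsto_iff _).1 (cz_tendsto_zero f) ε hε
    have h2 : ∀ m : ℕ, {k | ε ≤ ‖f m k‖}.Finite := fun m =>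
      (cz_tendsto_iff _).1 (cz_tendsto_zero (f m)) ε hε
    have h3 : {n : ℕ | ε ≤ ‖f n.unpair.1 n.unpair.2‖} ⊆
        (fun q : ℕ × ℕ => Nat.pair q.1 q.2) '' (⋃ m ∈ {m | ε ≤ ‖f m‖},
          (fun k => (m, k)) '' {k | ε ≤ ‖f m k‖}) := by
      intro n hn
      refine ⟨n.unpair, ?_, by simp⟩
      refine Set.mem_biUnion (x := n.unpair.1) ?_ ⟨n.unpair.2, hn, rfl⟩
      exact (le_trans hn (cz_norm_apply_le _ _) : ε ≤ ‖f n.unpair.1‖)
    exact ((h1.biUnion fun m _ => (h2 m).image _).image _).subset h3)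
  invFun g := cmk (fun m => cmk (fun k => g (Nat.pair m k)) (by
      rw [cz_tendsto_iff]
      intro ε hε
      have h1 := (cz_tendsto_iff _).1 (cz_tendsto_zero g) ε hε
      refine h1.preimage (f := fun k => Nat.pair m k) ?_ 
      intro a _ b _ hab
      exact (Nat.pair_eq_pair.1 hab).2)) (by
    rw [cz_tendsto_iff]
    intro ε hε
    have h1 := (cz_tendsto_iff _).1 (cz_tendsto_zero g) (ε / 2) (half_pos hε)
    refine (h1.image (fun n => n.unpair.1)).subset fun m hm => ?_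
    by_contra hcon
    have h2 : ∀ k, ‖g (Nat.pair m k)‖ ≤ ε / 2 := by
      intro k
      by_contra hk
      push Not at hk
      refine hcon ⟨Nat.pair m k, hk.le, ?_⟩
      simp
    have h3 := (cz_norm_le_iff (cmk (fun k => g (Nat.pair m k)) (by
      rw [cz_tendsto_iff]
      intro ε hε
      have h1 := (cz_tendsto_iff _).1 (cz_tendsto_zero g) ε hε
      refine h1.preimage (f := fun k => Nat.pair m k) ?_ 
      intro a _ b _ hab
      exact (Nat.pair_eq_pair.1 hab).2)) (half_pos hε).le).2 h2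
    have h4 : ε ≤ _ := hm
    exact absurd (h4.trans h3) (by linarith))
  map_add' f g := rfl
  map_smul' c f := rfl
  left_inv f := by
    ext m k
    change f (Nat.pair m k).unpair.1 (Nat.pair m k).unpair.2 = f m k
    rw [Nat.unpair_pair]
  right_inv g := by
    ext n
    change g (Nat.pair n.unpair.1 n.unpair.2) = g n
    rw [Nat.pair_unpair]

theorem dbl_iso (𝕜 : Type*) [RCLike 𝕜] (A : Type*) [NormedAddCommGroup A] [NormedSpace 𝕜 A] :
    Nonempty (C₀(ℕ, C₀(ℕ, A)) ≃L[𝕜] C₀(ℕ, A)) := by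
  refine ⟨(dblLin 𝕜 A).toContinuousLinearEquivOfBounds 1 1 ?_ ?_⟩
  · intro f
    rw [one_mul, cz_norm_le_iff _ (norm_nonneg _)]
    intro n
    have h1 : (dblLin 𝕜 A) f n = f n.unpair.1 n.unpair.2 := rfl
    rw [h1]
    exact (cz_norm_apply_le (f n.unpair.1) n.unpair.2).trans (cz_norm_apply_le f n.unpair.1)
  · intro g
    rw [one_mul, cz_norm_le_iff _ (norm_nonneg _)]
    intro m
    refine (cz_norm_le_iff _ (norm_nonneg _)).2 fun k => ?_
    have h1 : (dblLin 𝕜 A).symm g m k = g (Nat.pair m k) := rfl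
    rw [h1]
    exact cz_norm_apply_le g (Nat.pair m k)

end gen

end Pool.Agent.L0h84.RG
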