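import Pool.Agent.L0h84.RG.C0F

/-! Complemented subspaces of `c₀`. -/

namespace Pool.Agent.L0h84.RG

open Filter Topology ZeroAtInfty

section gen

variable {𝕜 : Type} [RCLike 𝕜]
variable {A : Type*} [NormedAddCommGroup A] [NormedSpace 𝕜 A]
variable {A' : Type*} [NormedAddCommGroup A'] [NormedSpace 𝕜 A']

theorem prod_c0_of_Cp (h : Cp 𝕜 A C₀(ℕ, 𝕜)) :
    Nonempty ((A × C₀(ℕ, 𝕜)) ≃L[𝕜] C₀(ℕ, 𝕜)) := by
  obtain ⟨e1⟩ := shift_iso h
  obtain ⟨e2⟩ := dbl_iso 𝕜 𝕜
  exact ⟨((ContinuousLinearEquiv.refl 𝕜 A).prodCongr e2.symm).trans (e1.trans e2)⟩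

theorem prod_c0_of_Cp' (h : Cp 𝕜 C₀(ℕ, 𝕜) A) : Nonempty ((A × C₀(ℕ, 𝕜)) ≃L[𝕜] A) := by
  obtain ⟨i, p, h⟩ := h
  obtain ⟨e2⟩ := split_iso 𝕜 𝕜
  let e3 : A ≃L[𝕜] C₀(ℕ, 𝕜) × p.ker := ContinuousLinearEquiv.equivOfRightInverse p i h
  -- `A × E ≃ E × A ≃ E × (E × W) ≃ (E × E) × W ≃ E × W ≃ A`
  exact ⟨(ContinuousLinearEquiv.prodComm 𝕜 A C₀(ℕ, 𝕜)).trans <|
    ((ContinuousLinearEquiv.refl 𝕜 C₀(ℕ, 𝕜)).prodCongr e3).trans <|
      (ContinuousLinearEquiv.prodAssoc 𝕜 _ _ _).symm.trans <|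
        (e2.symm.prodCongr (ContinuousLinearEquiv.refl 𝕜 _)).trans e3.symm⟩

theorem iso_of_Cp_Cp (h : Cp 𝕜 A C₀(ℕ, 𝕜)) (h' : Cp 𝕜 C₀(ℕ, 𝕜) A) :
    Nonempty (A ≃L[𝕜] C₀(ℕ, 𝕜)) := by
  obtain ⟨e1⟩ := prod_c0_of_Cp h
  obtain ⟨e2⟩ := prod_c0_of_Cp' h'
  exact ⟨e2.symm.trans e1⟩

/-- perturbation -/
lemma Cp_of_near [CompleteSpace A] (f : A →L[𝕜] A') (g : A' →L[𝕜] A) {c : ℝ} (hc0 : 0 ≤ c)
    (hc : c < 1) (h : ∀ a, ‖g (f a) - a‖ ≤ c * ‖a‖) : Cp 𝕜 A A' := by
  obtain ⟨t, ht⟩ : ∃ t : A →L[𝕜] A, t = 1 - g.comp f := ⟨_, rfl⟩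
  have hta : ∀ a, t a = a - g (f a) := fun a => by rw [ht]; rfl
  have htn : ‖t‖ < 1 := by
    refine lt_of_le_of_lt (ContinuousLinearMap.opNorm_le_bound _ hc0 fun a => ?_) hc
    rw [hta, norm_sub_rev]; exact h a
  let u := Units.oneSub t htn
  have hu : (u : A →L[𝕜] A) = 1 - t := Units.val_oneSub t htn
  refine ⟨f, (↑u⁻¹ : A →L[𝕜] A).comp g, fun a => ?_⟩
  have h1 : (↑u⁻¹ : A →L[𝕜] A) * (u : A →L[𝕜] A) = 1 := Units.inv_mul u
  have h2 : (u : A →L[𝕜] A) a = g (f a) := by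
    rw [hu]
    have : (1 - t : A →L[𝕜] A) a = a - t a := rfl
    rw [this, hta]; abel
  change (↑u⁻¹ : A →L[𝕜] A) (g (f a)) = a
  rw [← h2]
  exact DFunLike.congr_fun h1 a

/-- coordinate functionals -/
noncomputable def evc (k : ℕ) : C₀(ℕ, 𝕜) →L[𝕜] 𝕜 :=
  LinearMap.mkContinuous
    { toFun := fun x => x k
      map_add' := fun _ _ => rfl
      map_smul' := fun _ _ => rfl } 1
    (fun x => by rw [one_mul]; exact cz_norm_apply_le x k)

/-- operators on `c₀` from weakly unconditionally Cauchy series -/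
lemma c0_op [CompleteSpace A] (y : ℕ → A) (C : ℝ) (hC : 0 ≤ C)
    (hy : ∀ (S : Finset ℕ) (b : ℕ → 𝕜) (M : ℝ), 0 ≤ M → (∀ k ∈ S, ‖b k‖ ≤ M) →
      ‖∑ k ∈ S, b k • y k‖ ≤ C * M) :
    ∃ J : C₀(ℕ, 𝕜) →L[𝕜] A, ∀ b : C₀(ℕ, 𝕜),
      Tendsto (fun n => ∑ k ∈ Finset.range n, b k • y k) atTop (𝓝 (J b)) := by
  have hcauchy : ∀ b : C₀(ℕ, 𝕜), CauchySeq (fun n => ∑ k ∈ Finset.range n, b k • y k) := by
    intro b
    rw [Metric.cauchySeq_iff']
    intro ε hε
    obtain ⟨N, hN⟩ := Metric.tendsto_atTop.1 (cz_tendsto_zero b) (ε / (2 * (C + 1)))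
      (by positivity)
    refine ⟨N, fun n hn => ?_⟩
    rw [dist_eq_norm, ← Finset.sum_sdiff (Finset.range_mono hn), add_sub_cancel_right]
    have h1 := hy (Finset.range n \ Finset.range N) b (ε / (2 * (C + 1))) (by positivity)
      (fun k hk => by
        rw [Finset.mem_sdiff, Finset.mem_range, Finset.mem_range, not_lt] at hk
        have := hN k hk.2
        rw [dist_zero_right] at this
        exact this.le)
    refine lt_of_le_of_lt h1 ?_
    calc C * (ε / (2 * (C + 1))) ≤ (C + 1) * (ε / (2 * (C + 1))) := by gcongr; linarith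
      _ = ε / 2 := by field_simp
      _ < ε := half_lt_self hε
  choose L hL using fun b => cauchySeq_tendsto_of_complete (hcauchy b)
  have hadd : ∀ b c, L (b + c) = L b + L c := fun b c => by
    refine tendsto_nhds_unique (hL (b + c)) ?_
    have := (hL b).add (hL c)
    refine this.congr fun n => ?_
    rw [← Finset.sum_add_distrib]
    refine Finset.sum_congr rfl fun k _ => ?_
    rw [ZeroAtInftyContinuousMap.add_apply, add_smul]
  have hsmul : ∀ (r : 𝕜) b, L (r • b) = r • L b := fun r b => by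
    refine tendsto_nhds_unique (hL (r • b)) ?_
    refine ((hL b).const_smul r).congr fun n => ?_
    rw [Finset.smul_sum]
    refine Finset.sum_congr rfl fun k _ => ?_
    rw [ZeroAtInftyContinuousMap.smul_apply, smul_eq_mul, mul_smul]
  have hbd : ∀ b, ‖L b‖ ≤ C * ‖b‖ := fun b => by
    refine le_of_tendsto (hL b).norm (Eventually.of_forall fun n => ?_)
    exact hy _ b ‖b‖ (norm_nonneg b) fun k _ => cz_norm_apply_le b k
  exact ⟨LinearMap.mkContinuous { toFun := L, map_add' := hadd, map_smul' := hsmul } C hbd,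
    fun b => hL b⟩

/-- vectors vanishing on an initial segment -/
lemma exists_vec (hA : ¬ FiniteDimensional 𝕜 A) (i : A →L[𝕜] C₀(ℕ, 𝕜))
    (hi : ∀ a, i a = 0 → a = 0) (K : ℕ) : ∃ (a : A) (n : ℕ), K ≤ n ∧ (∀ j < K, i a j = 0) ∧
      i a n = 1 ∧ ‖i a‖ ≤ 1 := by
  classical
  -- a nonzero vector
  obtain ⟨a, ha0, ha⟩ : ∃ a : A, a ≠ 0 ∧ ∀ j < K, i a j = 0 := by
    by_contra hcon
    push Not at hcon
    let L : A →ₗ[𝕜] (Fin K → 𝕜) :=
      { toFun := fun a j => i a j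
        map_add' := fun a b => by
          funext j
          rw [map_add]; rfl
        map_smul' := fun c a => by
          funext j
          rw [map_smul]; rfl }
    have hL : Function.Injective L := by
      rw [injective_iff_map_eq_zero]
      intro a haL
      by_contra ha0
      obtain ⟨j, hj, hj'⟩ := hcon a ha0
      exact hj' (congrFun haL ⟨j, hj⟩)
    exact hA (FiniteDimensional.of_injective L hL)
  have hia : i a ≠ 0 := fun h => ha0 (hi a h)
  have hpos : 0 < ‖i a‖ := norm_pos_iff.2 hia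
  -- the norm is attained
  obtain ⟨n, hn⟩ : ∃ n, ‖i a n‖ = ‖i a‖ := by
    by_contra hcon
    push Not at hcon
    have hlt : ∀ n, ‖i a n‖ < ‖i a‖ := fun n => lt_of_le_of_ne (cz_norm_apply_le _ n) (hcon n)
    obtain ⟨N, hN⟩ := Metric.tendsto_atTop.1 (cz_tendsto_zero (i a)) (‖i a‖ / 2) (by positivity)
    -- maximum over the initial segment
    have hfin : ∃ M, M < ‖i a‖ ∧ 0 ≤ M ∧ ∀ n < N, ‖i a n‖ ≤ M := by
      rcases Nat.eq_zero_or_pos N with h0 | h0
      · exact ⟨0, hpos, le_rfl, fun n hn => by omega⟩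
      · obtain ⟨m, hm, hm'⟩ := Finset.exists_max_image (Finset.range N) (fun n => ‖i a n‖)
          ⟨0, Finset.mem_range.2 h0⟩
        exact ⟨‖i a m‖, hlt m, norm_nonneg _, fun n hn => hm' n (Finset.mem_range.2 hn)⟩
    obtain ⟨M, hM1, hM2, hM3⟩ := hfin
    have h1 : ‖i a‖ ≤ max M (‖i a‖ / 2) := by
      refine (cz_norm_le_iff _ (le_max_of_le_left hM2)).2 fun n => ?_
      rcases lt_or_ge n N with h | h
      · exact (hM3 n h).trans (le_max_left _ _)
      · have := hN n h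
        rw [dist_zero_right] at this
        exact this.le.trans (le_max_right _ _)
    have h2 : max M (‖i a‖ / 2) < ‖i a‖ := max_lt hM1 (by linarith)
    linarith
  have hn0 : i a n ≠ 0 := by
    intro h
    rw [h, norm_zero] at hn
    linarith
  refine ⟨(i a n)⁻¹ • a, n, ?_, ?_, ?_, ?_⟩
  · by_contra h
    exact hn0 (ha n (not_le.1 h))
  · intro j hj
    rw [map_smul, ZeroAtInftyContinuousMap.smul_apply, ha j hj, smul_zero]
  · rw [map_smul, ZeroAtInftyContinuousMap.smul_apply, smul_eq_mul, inv_mul_cancel₀ hn0]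
  · rw [map_smul, norm_smul, norm_inv, hn, inv_mul_cancel₀ hpos.ne']

/-- An infinite dimensional complemented subspace of `c₀` contains a complemented copy of `c₀`. -/
theorem Cp_c0_of_infinite [CompleteSpace A] (hA : ¬ FiniteDimensional 𝕜 A)
    (h : Cp 𝕜 A C₀(ℕ, 𝕜)) : Cp 𝕜 C₀(ℕ, 𝕜) A := by
  obtain ⟨i, p, hip⟩ := h
  have hi : ∀ a, i a = 0 → a = 0 := fun a ha => by rw [← hip a, ha, map_zero]
  choose a n h1 h2 h3 h4 using exists_vec hA i hi
  -- tails
  have htail : ∀ (K k : ℕ), ∃ K', n K < K' ∧ ∀ j, K' ≤ j → ‖i (a K) j‖ ≤ (1 / 8) * (1 / 2) ^ k := by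
    intro K k
    obtain ⟨N, hN⟩ := Metric.tendsto_atTop.1 (cz_tendsto_zero (i (a K))) ((1 / 8) * (1 / 2) ^ k)
      (by positivity)
    refine ⟨max N (n K + 1), by omega, fun j hj => ?_⟩
    have := hN j (by omega)
    rw [dist_zero_right] at this
    exact this.le
  choose F hF1 hF2 using htail
  let Ks : ℕ → ℕ := fun k => Nat.rec 0 (fun k K => F K k) k
  have hKs : ∀ k, Ks (k + 1) = F (Ks k) k := fun _ => rfl
  have hstep : ∀ k, Ks k ≤ n (Ks k) ∧ n (Ks k) < Ks (k + 1) := fun k =>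
    ⟨h1 _, by rw [hKs]; exact hF1 _ _⟩
  have hmono : StrictMono Ks := strictMono_nat_of_lt_succ fun k => by
    have := hstep k; omega
  obtain ⟨y, hy⟩ : ∃ y : ℕ → A, ∀ k, y k = a (Ks k) := ⟨_, fun _ => rfl⟩
  obtain ⟨m, hm⟩ : ∃ m : ℕ → ℕ, ∀ k, m k = n (Ks k) := ⟨_, fun _ => rfl⟩
  have y1 : ∀ k j, j < Ks k → i (y k) j = 0 := fun k j hj => by rw [hy]; exact h2 _ j hj
  have y2 : ∀ k, i (y k) (m k) = 1 := fun k => by rw [hy, hm]; exact h3 _
  have y3 : ∀ k j, ‖i (y k) j‖ ≤ 1 := fun k j => by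
    rw [hy]; exact (cz_norm_apply_le _ _).trans (h4 _)
  have y4 : ∀ k j, Ks (k + 1) ≤ j → ‖i (y k) j‖ ≤ (1 / 8) * (1 / 2) ^ k := fun k j hj => by
    rw [hy]; exact hF2 _ _ j (by rw [← hKs]; exact hj)
  have m1 : ∀ k, Ks k ≤ m k := fun k => by rw [hm]; exact (hstep k).1
  have m2 : ∀ k, m k < Ks (k + 1) := fun k => by rw [hm]; exact (hstep k).2
  have mmono : StrictMono m := strictMono_nat_of_lt_succ fun k => by
    have := m2 k
    have := m1 (k + 1)
    omega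
  -- sums of geometric type
  have hgeo : ∀ N, ∑ k ∈ Finset.range N, (1 / 8 : ℝ) * (1 / 2) ^ k ≤ 1 / 4 := by
    intro N
    have : ∑ k ∈ Finset.range N, (1 / 8 : ℝ) * (1 / 2) ^ k = 1 / 4 - 1 / 4 * (1 / 2) ^ N := by
      induction N with
      | zero => simp
      | succ N ih => rw [Finset.sum_range_succ, ih]; ring
    rw [this]
    have : (0 : ℝ) ≤ 1 / 4 * (1 / 2) ^ N := by positivity
    linarith
  have hgeoS : ∀ S : Finset ℕ, ∑ k ∈ S, (1 / 8 : ℝ) * (1 / 2) ^ k ≤ 1 / 4 := by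
    intro S
    obtain ⟨N, hN⟩ : ∃ N, S ⊆ Finset.range N := ⟨S.sup id + 1, fun k hk => by
      rw [Finset.mem_range]
      have := Finset.le_sup (f := id) hk
      simp only [id] at this
      omega⟩
    refine (Finset.sum_le_sum_of_subset_of_nonneg hN fun _ _ _ => by positivity).trans (hgeo N)
  -- the upper estimate
  have hup : ∀ (S : Finset ℕ) (b : ℕ → 𝕜) (M : ℝ), 0 ≤ M → (∀ k ∈ S, ‖b k‖ ≤ M) →
      ‖i (∑ k ∈ S, b k • y k)‖ ≤ 5 / 4 * M := by
    intro S b M hM hb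
    refine (cz_norm_le_iff _ (by positivity)).2 fun j => ?_
    have e1 : i (∑ k ∈ S, b k • y k) j = ∑ k ∈ S, b k * i (y k) j := by
      refine (map_sum ((evc j).comp i) (fun k => b k • y k) S).trans
        (Finset.sum_congr rfl fun k _ => ?_)
      rw [map_smul, smul_eq_mul]
      rfl
    rw [e1, ← Finset.sum_filter_add_sum_filter_not S (fun k => Ks (k + 1) ≤ j)]
    have b1 : ‖∑ k ∈ S.filter (fun k => Ks (k + 1) ≤ j), b k * i (y k) j‖ ≤ 1 / 4 * M := by
      calc _ ≤ ∑ k ∈ S.filter (fun k => Ks (k + 1) ≤ j), ‖b k * i (y k) j‖ := norm_sum_le _ _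
        _ ≤ ∑ k ∈ S.filter (fun k => Ks (k + 1) ≤ j), M * ((1 / 8) * (1 / 2) ^ k) :=
            Finset.sum_le_sum fun k hk => by
              rw [Finset.mem_filter] at hk
              rw [norm_mul]
              exact mul_le_mul (hb k hk.1) (y4 k j hk.2) (norm_nonneg _) hM
        _ = M * ∑ k ∈ S.filter (fun k => Ks (k + 1) ≤ j), (1 / 8 : ℝ) * (1 / 2) ^ k := by
            rw [Finset.mul_sum]
        _ ≤ M * (1 / 4) := by gcongr; exact hgeoS _
        _ = _ := by ring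
    have b2 : ‖∑ k ∈ S.filter (fun k => ¬ Ks (k + 1) ≤ j), b k * i (y k) j‖ ≤ M := by
      refine R184CA.norm_sum_le_of_unique _ _ _ hM ?_ ?_
      · intro k hk
        rw [Finset.mem_filter] at hk
        rw [norm_mul]
        calc _ ≤ M * 1 := mul_le_mul (hb k hk.1) (y3 k j) (norm_nonneg _) hM
          _ = M := mul_one M
      · intro k hk l hl hkl _ hl0
        rw [Finset.mem_filter] at hk hl
        have a1 : Ks l ≤ j := by
          by_contra hcon
          exact hl0 (by rw [y1 l j (not_le.1 hcon), mul_zero])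
        exact hk.2 ((hmono.monotone hkl).trans a1)
    refine (norm_add_le _ _).trans ?_
    linarith
  obtain ⟨J, hJ⟩ := c0_op (𝕜 := 𝕜) y (‖p‖ * (5 / 4)) (by positivity) (fun S b M hM hb => by
    rw [← hip (∑ k ∈ S, b k • y k)]
    calc _ ≤ ‖p‖ * ‖i (∑ k ∈ S, b k • y k)‖ := p.le_opNorm _
      _ ≤ ‖p‖ * (5 / 4 * M) := by gcongr; exact hup S b M hM hb
      _ = _ := by ring)
  -- restriction to the chosen coordinates
  let ρ : C₀(ℕ, 𝕜) →L[𝕜] C₀(ℕ, 𝕜) := LinearMap.mkContinuous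
    { toFun := fun x => cmk (fun k => x (m k)) ((cz_tendsto_zero x).comp mmono.tendsto_atTop)
      map_add' := fun _ _ => rfl
      map_smul' := fun _ _ => rfl } 1 (fun x => by
        rw [one_mul]
        exact (cz_norm_le_iff _ (norm_nonneg _)).2 fun k => cz_norm_apply_le x (m k))
  have hρ : ∀ x k, ρ x k = x (m k) := fun _ _ => rfl
  refine Cp_of_near J (ρ.comp i) (c := 1 / 4) (by norm_num) (by norm_num) fun b => ?_
  refine (cz_norm_le_iff _ (by positivity)).2 fun k => ?_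
  have e0 : ((ρ.comp i) (J b) - b) k = i (J b) (m k) - b k := rfl
  rw [e0]
  have hlim : Tendsto (fun N => ‖i (∑ l ∈ Finset.range N, b l • y l) (m k) - b k‖) atTop
      (𝓝 ‖i (J b) (m k) - b k‖) := by
    have h1 : Continuous fun v : A => i v (m k) := (evc (m k)).continuous.comp i.continuous
    exact (((h1.tendsto _).comp (hJ b)).sub_const (b k)).norm
  refine le_of_tendsto hlim ?_
  filter_upwards [eventually_gt_atTop k] with N hN
  have e1 : i (∑ l ∈ Finset.range N, b l • y l) (m k) =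
      ∑ l ∈ Finset.range N, b l * i (y l) (m k) := by
    refine (map_sum ((evc (m k)).comp i) (fun l => b l • y l) (Finset.range N)).trans
      (Finset.sum_congr rfl fun l _ => ?_)
    rw [map_smul, smul_eq_mul]
    rfl
  rw [e1, ← Finset.add_sum_erase _ _ (Finset.mem_range.2 hN), y2, mul_one, add_sub_cancel_left]
  calc _ ≤ ∑ l ∈ (Finset.range N).erase k, ‖b l * i (y l) (m k)‖ := norm_sum_le _ _
    _ ≤ ∑ l ∈ (Finset.range N).erase k, ‖b‖ * ((1 / 8) * (1 / 2) ^ l) :=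
        Finset.sum_le_sum fun l hl => by
          rw [Finset.mem_erase] at hl
          rw [norm_mul]
          refine mul_le_mul (cz_norm_apply_le b l) ?_ (norm_nonneg _) (norm_nonneg _)
          rcases lt_or_gt_of_ne hl.1 with h | h
          · exact y4 l (m k) ((hmono.monotone h).trans (m1 k))
          · rw [y1 l (m k) ((m2 k).trans_le (hmono.monotone h)), norm_zero]
            positivity
    _ = ‖b‖ * ∑ l ∈ (Finset.range N).erase k, (1 / 8 : ℝ) * (1 / 2) ^ l := by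
        rw [Finset.mul_sum]
    _ ≤ ‖b‖ * (1 / 4) := by gcongr; exact hgeoS _
    _ = _ := by ring

/-- Pełczyński: infinite dimensional complemented subspaces of `c₀` are isomorphic to `c₀`. -/
theorem iso_c0_of_Cp [CompleteSpace A] (hA : ¬ FiniteDimensional 𝕜 A)
    (h : Cp 𝕜 A C₀(ℕ, 𝕜)) : Nonempty (A ≃L[𝕜] C₀(ℕ, 𝕜)) :=
  iso_of_Cp_Cp h (Cp_c0_of_infinite hA h)

end gen

end Pool.Agent.L0h84.RG
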