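import Pool.Agent.L0h84.RG.Scal2

/-! Operators from `c₀` into the Bourgain-Delbaen sum are essentially concentrated on initial
segments. -/

namespace Pool.Agent.L0h84.RG

open Filter Topology ZeroAtInfty Pool.Agent.R184CA Pool.Agent.R184CA.BD

variable {𝕜 : Type} [RCLike 𝕜]

lemma c0_norm_add_le {x u : C₀(ℕ, 𝕜)} {N : ℕ} {c1 c2 : 𝕜} (h1 : ‖c1‖ ≤ 1) (h2 : ‖c2‖ ≤ 1)
    (hx : ‖x‖ ≤ 1) (hu : ‖u‖ ≤ 1) (hu0 : ∀ i < N, u i = 0) :
    ‖c1 • C0.Q N x + c2 • u‖ ≤ 1 := by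
  rw [C0.norm_le_iff _ zero_le_one]
  intro i
  rw [ZeroAtInftyContinuousMap.add_apply, ZeroAtInftyContinuousMap.smul_apply,
    ZeroAtInftyContinuousMap.smul_apply, C0.Q_apply]
  have a1 := (C0.norm_apply_le x i).trans hx
  have a2 := (C0.norm_apply_le u i).trans hu
  by_cases hi : i < N
  · rw [if_pos hi, hu0 i hi, smul_zero, add_zero, norm_smul]
    have := norm_nonneg (x i)
    nlinarith [norm_nonneg c1]
  · rw [if_neg hi, smul_zero, zero_add, norm_smul]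
    have := norm_nonneg (u i)
    nlinarith [norm_nonneg c2]

/-- functionals on `c₀` are small on tails of the unit ball -/
lemma c0_weak_null (f : C₀(ℕ, 𝕜) →L[𝕜] 𝕜) {ε : ℝ} (hε : 0 < ε) :
    ∃ N, ∀ u : C₀(ℕ, 𝕜), (∀ i < N, u i = 0) → ‖u‖ ≤ 1 → ‖f u‖ ≤ ε := by
  obtain ⟨x, hx1, hx2⟩ := f.exists_lt_apply_of_lt_opNorm (r := ‖f‖ - ε / 2) (by linarith)
  have hlim : Tendsto (fun n => ‖f (C0.Q n x)‖) atTop (𝓝 ‖f x‖) :=
    ((f.continuous.tendsto x).comp (C0.Q_lim x)).norm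
  obtain ⟨N, hN⟩ := (hlim.eventually (lt_mem_nhds hx2)).exists
  refine ⟨N, fun u hu hu1 => ?_⟩
  obtain ⟨c1, hc1, hc1'⟩ := RCLike.exists_norm_eq_mul_self (f (C0.Q N x))
  obtain ⟨c2, hc2, hc2'⟩ := RCLike.exists_norm_eq_mul_self (f u)
  have h1 := c0_norm_add_le hc1.le hc2.le hx1.le hu1 hu
  have h2 : f (c1 • C0.Q N x + c2 • u) = ((‖f (C0.Q N x)‖ + ‖f u‖ : ℝ) : 𝕜) := by
    have h3 : ((‖f (C0.Q N x)‖ + ‖f u‖ : ℝ) : 𝕜) = c1 * f (C0.Q N x) + c2 * f u := by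
      push_cast
      exact congrArg₂ (· + ·) hc1' hc2'
    rw [h3, map_add, map_smul, map_smul, smul_eq_mul, smul_eq_mul]
  have h3 : ‖f (C0.Q N x)‖ + ‖f u‖ ≤ ‖f‖ := by
    have h4 := f.le_opNorm (c1 • C0.Q N x + c2 • u)
    rw [h2, norm_realK, Real.norm_eq_abs, abs_of_nonneg (by positivity)] at h4
    have := norm_nonneg f
    nlinarith
  linarith

variable {X : Type*} [NormedAddCommGroup X] [NormedSpace 𝕜 X]
variable {D : Nodes 𝕜 C₀(ℕ, 𝕜)} {B : BD D (V0 𝕜) X} {C δ : ℝ}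

lemma c0_weak_null_set (U : C₀(ℕ, 𝕜) →L[𝕜] X) {Ψ : Set (X →L[𝕜] 𝕜)} (hΨ : Ψ.Finite) {ε : ℝ}
    (hε : 0 < ε) : ∃ N, ∀ u : C₀(ℕ, 𝕜), (∀ i < N, u i = 0) → ‖u‖ ≤ 1 →
      ∀ ψ ∈ Ψ, ‖ψ (U u)‖ ≤ ε := by
  choose M hM using fun ψ : X →L[𝕜] 𝕜 => c0_weak_null (ψ.comp U) hε
  refine ⟨hΨ.toFinset.sup M, fun u hu hu1 ψ hψ => ?_⟩
  refine hM ψ u (fun i hi => hu i (lt_of_lt_of_le hi ?_)) hu1
  exact Finset.le_sup (f := M) (hΨ.mem_toFinset.2 hψ)

lemma Q_eq_sum (N : ℕ) (x : C₀(ℕ, 𝕜)) :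
    C0.Q N x = ∑ i ∈ Finset.range N, x i • (C0.e i : C₀(ℕ, 𝕜)) := by
  ext k
  have h1 : (∑ i ∈ Finset.range N, x i • (C0.e i : C₀(ℕ, 𝕜))) k =
      ∑ i ∈ Finset.range N, x i * (if k = i then 1 else 0) := by
    have := map_sum (ev k) (fun i => x i • (C0.e i : C₀(ℕ, 𝕜))) (Finset.range N)
    rw [ev_apply] at this
    rw [this]
    refine Finset.sum_congr rfl fun i _ => ?_
    rw [ev_apply, ZeroAtInftyContinuousMap.smul_apply, C0.e_apply, smul_eq_mul]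
  rw [h1, C0.Q_apply]
  simp

/-- block vectors -/
def GU (N : ℕ) (z : C₀(ℕ, 𝕜) × ℕ) (_ _ : Fin 2 → ℕ)
    (_ : Fin 2 → (C₀(ℕ, 𝕜) →L[𝕜] C₀(ℕ, 𝕜))) : Prop :=
  (∀ i < N, z.1 i = 0) ∧ (∀ i, z.2 ≤ i → z.1 i = 0) ∧ ‖z.1‖ ≤ 1

lemma re_ev_le (k : ℕ) (v : C₀(ℕ, 𝕜)) : RCLike.re (ev k v) ≤ ‖v‖ :=
  (le_abs_self _).trans ((abs_re_le_normK _).trans (C0.norm_apply_le v k))

lemma claimU_supply (B : BD D (V0 𝕜) X) (U : C₀(ℕ, 𝕜) →L[𝕜] X)
    {ε : ℝ} (hε : 0 < ε) (hcon : ∀ M, ∃ h, ε * ‖h‖ < ‖U h - B.P M (U h)‖)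
    (e : ℝ) (he : 0 < e) (N : ℕ) (Ψ : Set (X →L[𝕜] 𝕜)) (hΨ : Ψ.Finite) :
      ∃ (z : C₀(ℕ, 𝕜) × ℕ) (s η : Fin 2 → ℕ)
      (A : Fin 2 → (C₀(ℕ, 𝕜) →L[𝕜] C₀(ℕ, 𝕜))), GU N z s η A ∧
      Adm (V0 𝕜) (ok0 𝕜) N s η A ∧ (∀ ψ ∈ Ψ, ‖ψ (U z.1)‖ ≤ e) ∧
      ε / 8 ≤ (RCLike.re (ev 0 (∑ i, A i (B.co (η i) (U z.1 - B.P (s i) (U z.1)))))) := by
  obtain ⟨N1, hN1⟩ := c0_weak_null_set U hΨ he
  obtain ⟨N', hN'⟩ : ∃ N', N' = max N N1 := ⟨_, rfl⟩
  have hε4 : 0 < ε / (4 * ((N' : ℝ) + 1)) := by positivity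
  choose t ht using fun i : ℕ => B.eventually_P (U (C0.e i)) hε4
  obtain ⟨M, hM⟩ : ∃ M, M = max ((Finset.range N').sup t) N := ⟨_, rfl⟩
  obtain ⟨h, hh⟩ := hcon M
  obtain ⟨τ0, hτ0⟩ : ∃ τ0, τ0 = ‖h‖ := ⟨_, rfl⟩
  rw [← hτ0] at hh
  have hh0 : 0 < τ0 := by
    rw [hτ0]
    refine norm_pos_iff.2 ?_
    rintro rfl
    rw [map_zero, map_zero, sub_zero, norm_zero, hτ0, norm_zero, mul_zero] at hh
    exact lt_irrefl _ hh
  -- the complementary projection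
  obtain ⟨R, hR⟩ : ∃ R : X →L[𝕜] X, R = ContinuousLinearMap.id 𝕜 X - B.P M := ⟨_, rfl⟩
  have hRa : ∀ z, R z = z - B.P M z := fun z => by rw [hR]; rfl
  have hRn : ∀ z, ‖R z‖ ≤ 3 * ‖z‖ := fun z => by rw [hRa]; exact B.norm_sub_P M z
  rw [← hRa] at hh
  have b1 : ‖R (U (C0.Q N' h))‖ ≤ ε / 4 * τ0 := by
    rw [Q_eq_sum, map_sum, map_sum]
    calc _ ≤ ∑ i ∈ Finset.range N', ‖R (U (h i • (C0.e i : C₀(ℕ, 𝕜))))‖ := norm_sum_le _ _
      _ ≤ ∑ i ∈ Finset.range N', τ0 * (ε / (4 * ((N' : ℝ) + 1))) :=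
          Finset.sum_le_sum fun i hi => by
            rw [map_smul, map_smul, norm_smul]
            have a1 : ‖h i‖ ≤ τ0 := by rw [hτ0]; exact C0.norm_apply_le h i
            have a2 : ‖R (U (C0.e i))‖ ≤ ε / (4 * ((N' : ℝ) + 1)) := by
              rw [hRa]
              refine ht i M ?_
              rw [hM]
              exact (Finset.le_sup (f := t) hi).trans (le_max_left _ _)
            gcongr
      _ = (N' : ℝ) * (τ0 * (ε / (4 * ((N' : ℝ) + 1)))) := by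
          rw [Finset.sum_const, Finset.card_range, nsmul_eq_mul]
      _ ≤ ((N' : ℝ) + 1) * (τ0 * (ε / (4 * ((N' : ℝ) + 1)))) := by gcongr; linarith
      _ = _ := by field_simp
  obtain ⟨u1, hu1⟩ : ∃ u1, u1 = h - C0.Q N' h := ⟨_, rfl⟩
  have hu1i : ∀ i, u1 i = if i < N' then 0 else h i := by
    intro i
    rw [hu1, ZeroAtInftyContinuousMap.sub_apply, C0.Q_apply]
    split_ifs <;> simp
  have b2 : 3 / 4 * ε * τ0 < ‖R (U u1)‖ := by
    have e1 : R (U u1) = R (U h) - R (U (C0.Q N' h)) := by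
      rw [hu1, map_sub, map_sub]
    have := norm_sub_norm_le (R (U h)) (R (U (C0.Q N' h)))
    rw [e1]
    linarith
  obtain ⟨K, hK⟩ : ∃ K, ‖u1 - C0.Q K u1‖ < ε / (12 * (‖U‖ + 1)) * τ0 := by
    have h1 := tendsto_iff_norm_sub_tendsto_zero.1 (C0.Q_lim u1)
    obtain ⟨K, hK⟩ := (h1.eventually (gt_mem_nhds
      (show 0 < ε / (12 * (‖U‖ + 1)) * τ0 by positivity))).exists
    exact ⟨K, by rw [norm_sub_rev]; exact hK⟩
  obtain ⟨u2, hu2⟩ : ∃ u2, u2 = C0.Q K u1 := ⟨_, rfl⟩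
  rw [← hu2] at hK
  have b3 : 1 / 2 * ε * τ0 < ‖R (U u2)‖ := by
    have e1 : R (U u2) = R (U u1) - R (U (u1 - u2)) := by
      simp only [map_sub]; abel
    have e2 : ‖R (U (u1 - u2))‖ ≤ 1 / 4 * ε * τ0 := by
      refine (hRn _).trans ?_
      calc 3 * ‖U (u1 - u2)‖ ≤ 3 * ((‖U‖ + 1) * (ε / (12 * (‖U‖ + 1)) * τ0)) := by
            gcongr
            refine (U.le_opNorm _).trans ?_
            gcongr
            linarith
        _ = _ := by field_simp; norm_num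
    have := norm_sub_norm_le (R (U u1)) (R (U (u1 - u2)))
    rw [e1]
    linarith
  have hu2i : ∀ i, u2 i = if i < K then u1 i else 0 := by
    intro i; rw [hu2, C0.Q_apply]
  have hu2n : ∀ i, ‖u2 i‖ ≤ τ0 := by
    intro i
    rw [hu2i, hu1i, hτ0]
    split_ifs
    · rw [norm_zero]; exact norm_nonneg _
    · exact C0.norm_apply_le h i
    · rw [norm_zero]; exact norm_nonneg _
  obtain ⟨u, hu⟩ : ∃ u, u = ((τ0 : ℝ) : 𝕜)⁻¹ • u2 := ⟨_, rfl⟩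
  have hnτ : ‖((τ0 : ℝ) : 𝕜)⁻¹‖ = τ0⁻¹ := by
    rw [norm_inv, norm_realK, Real.norm_eq_abs, abs_of_pos hh0]
  have hun : ‖u‖ ≤ 1 := by
    rw [C0.norm_le_iff _ zero_le_one]
    intro i
    rw [hu, ZeroAtInftyContinuousMap.smul_apply, norm_smul, hnτ, inv_mul_le_iff₀ hh0, mul_one]
    exact hu2n i
  have hu0 : ∀ i < N', u i = 0 := by
    intro i hi
    rw [hu, ZeroAtInftyContinuousMap.smul_apply, hu2i, hu1i, if_pos hi, ite_self, smul_zero]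
  have huK : ∀ i, K ≤ i → u i = 0 := by
    intro i hi
    rw [hu, ZeroAtInftyContinuousMap.smul_apply, hu2i, if_neg (by omega), smul_zero]
  have b4 : ε / 2 < ‖R (U u)‖ := by
    rw [hu, map_smul, map_smul, norm_smul, hnτ]
    rw [lt_inv_mul_iff₀ hh0]
    linarith
  obtain ⟨η, k, hηk⟩ := exists_coord B (x := R (U u)) (c := ε / 2) (by positivity) b4
  obtain ⟨c, hc1, hc2⟩ := RCLike.exists_norm_eq_mul_self (B.co η (R (U u)) k)
  obtain ⟨τ, hτ0', hτ1, hτ2⟩ : ∃ τ : ℝ, 0 < τ ∧ τ ≤ 1 / 4 ∧ τ * ‖R (U u)‖ ≤ ε / 8 := by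
    refine ⟨min (1 / 4) (ε / (8 * (‖R (U u)‖ + 1))), by positivity, min_le_left _ _, ?_⟩
    have h2 := min_le_right (1 / 4) (ε / (8 * (‖R (U u)‖ + 1)))
    calc _ ≤ (ε / (8 * (‖R (U u)‖ + 1))) * (‖R (U u)‖ + 1) := by gcongr; linarith
      _ = ε / 8 := by field_simp
  obtain ⟨r, hr, hr'⟩ := exists_Qd (c / 2) hτ0'
  have m1 : ‖r‖ ≤ 1 := by
    have : r = c / 2 - (c / 2 - r) := by ring
    rw [this]
    refine (norm_sub_le _ _).trans ?_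
    have : ‖c / 2‖ = 1 / 2 := by rw [norm_div, hc1, RCLike.norm_ofNat]
    linarith
  refine ⟨(u, K), fun _ => M, ![η, 0], ![rk k r, 0], ⟨?_, huK, hun⟩,
    ⟨fun _ => ?_, ?_, ?_, ⟨0, fun _ _ _ _ _ => Submodule.mem_top⟩⟩, ?_, ?_⟩
  · exact fun i hi => hu0 i (by omega)
  · rw [hM]; exact le_max_right _ _
  · intro i
    fin_cases i
    · exact Or.inr (Or.inr ⟨k, r, hr, rfl⟩)
    · exact Or.inl rfl
  · change ‖rk k r‖ + ‖(0 : C₀(ℕ, 𝕜) →L[𝕜] C₀(ℕ, 𝕜))‖ ≤ 1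
    have hz : ‖(0 : C₀(ℕ, 𝕜) →L[𝕜] C₀(ℕ, 𝕜))‖ = 0 := ContinuousLinearMap.opNorm_zero
    rw [hz, add_zero]
    exact (norm_rk k r).trans m1
  · exact hN1 u (fun i hi => hu0 i (by omega)) hun
  · rw [Fin.sum_univ_two]
    change ε / 8 ≤ RCLike.re (ev 0 (rk k r (B.co η (U u - B.P M (U u))) + 0))
    rw [add_zero, ← hRa, rk_apply, ev_apply, ZeroAtInftyContinuousMap.smul_apply, C0.e_apply,
      if_pos rfl, smul_eq_mul, mul_one]
    have e1 : r * B.co η (R (U u)) k = ((‖B.co η (R (U u)) k‖ / 2 : ℝ) : 𝕜) -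
        (c / 2 - r) * B.co η (R (U u)) k := by
      have hq : ((‖B.co η (R (U u)) k‖ / 2 : ℝ) : 𝕜) = c * B.co η (R (U u)) k / 2 := by
        push_cast
        exact congrArg (fun z : 𝕜 => z / 2) hc2
      rw [hq]; ring
    rw [e1, sub_reK, RCLike.ofReal_re]
    have e2 : ‖(c / 2 - r) * B.co η (R (U u)) k‖ ≤ τ * ‖R (U u)‖ := by
      rw [norm_mul]
      gcongr
      exact norm_coord B _ _ _
    have e3 := (abs_le.1 ((abs_re_le_normK _).trans e2)).2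
    linarith

theorem claimU (hD : D.Ok (V0 𝕜) (ok0 𝕜)) (B : BD D (V0 𝕜) X) (U : C₀(ℕ, 𝕜) →L[𝕜] X)
    {ε : ℝ} (hε : 0 < ε) : ∃ M, ∀ h, ‖U h - B.P M (U h)‖ ≤ ε * ‖h‖ := by
  by_contra hcon
  push Not at hcon
  obtain ⟨δ, hδ⟩ : ∃ δ, δ = ε / 8 := ⟨_, rfl⟩
  have hδ0 : 0 < δ := by rw [hδ]; positivity
  have H := claimU_supply B U hε hcon
  rw [← hδ] at H
  -- conclusion
  have hall : ∀ j, Even j → j ≠ 0 → δ / 2 ≤ ‖U‖ * β j := by
    intro j hj hj0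
    have hβ := β_pos j
    have hn : (0 : ℝ) < nn j := by exact_mod_cast nn_pos j
    obtain ⟨e, he⟩ : ∃ e, e = β j * δ / (12 * (nn j : ℝ)) := ⟨_, rfl⟩
    have he0 : 0 < e := by rw [he]; positivity
    obtain ⟨ξs, zs, hξ0, prop⟩ := cseq (L := fun z : C₀(ℕ, 𝕜) × ℕ => z.2)
      (U := fun z : C₀(ℕ, 𝕜) × ℕ => U z.1) hD hj 0 he0 (H e he0) Set.finite_empty
    have hlt : ∀ r < nn j, ξs r < ξs (r + 1) := fun r hr => by
      have := hD.par_lt _ (prop r hr).c3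
      rw [(prop r hr).c4] at this; exact this
    have hmono : ∀ r r', r ≤ r' → r' ≤ nn j → ξs r ≤ ξs r' := by
      intro r r' hrr' hr'
      induction r' with
      | zero => have : r = 0 := by omega
                rw [this]
      | succ k ih =>
        rcases Nat.le_succ_iff.1 hrr' with h | h
        · exact (ih h (by omega)).trans (hlt k (by omega)).le
        · rw [h]
    have hchain : ∀ r < nn j, ξs (r + 1) ≠ 0 ∧ D.par (ξs (r + 1)) = ξs r ∧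
        D.wt (ξs (r + 1)) = j :=
      fun r hr => ⟨(prop r hr).c3, (prop r hr).c4, (prop r hr).c5⟩
    have hlow := chain_lower (B := B) hD (norm_ev 0) (n := nn j) (w := j) (ξ := ξs)
      (y := fun r => U (zs r).1) hξ0 hchain he0.le
      (fun r hr => (prop r hr).c10) (fun r hr => (prop r hr).c8) (fun r hr => (prop r hr).c9)
    rw [← map_sum] at hlow
    have hsum : ‖∑ r ∈ Finset.range (nn j), (zs r).1‖ ≤ 1 := by
      rw [C0.norm_le_iff _ zero_le_one]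
      intro i
      have h1 : (∑ r ∈ Finset.range (nn j), (zs r).1) i =
          ∑ r ∈ Finset.range (nn j), (zs r).1 i :=
        map_sum (ev i) (fun r => (zs r).1) (Finset.range (nn j))
      rw [h1]
      refine norm_sum_le_of_unique _ _ _ zero_le_one ?_ ?_
      · intro r hr
        rw [Finset.mem_range] at hr
        exact (C0.norm_apply_le _ i).trans (prop r hr).c1.2.2
      · intro k hk l hl hkl hk0 hl0
        rw [Finset.mem_range] at hk hl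
        have a1 : i < (zs k).2 := by
          by_contra hcon
          exact hk0 ((prop k hk).c1.2.1 i (not_lt.1 hcon))
        have a2 : max (ξs l + 1) 0 ≤ i := by
          by_contra hcon
          exact hl0 ((prop l hl).c1.1 i (not_le.1 hcon))
        have a3 := (prop k hk).c2
        have a4 := hmono (k + 1) l hkl hl.le
        omega
    obtain ⟨zz, hzz⟩ : ∃ zz, zz = ∑ r ∈ Finset.range (nn j), (zs r).1 := ⟨_, rfl⟩
    rw [← hzz] at hlow hsum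
    have hup : RCLike.re (ev 0 (B.co (ξs (nn j)) (U zz))) ≤ ‖U‖ := by
      have b1 := re_ev_le 0 (B.co (ξs (nn j)) (U zz))
      have b2 := B.norm_co (ξs (nn j)) (U zz)
      have b3 := U.le_opNorm zz
      have b4 : ‖U‖ * ‖zz‖ ≤ ‖U‖ * 1 := mul_le_mul_of_nonneg_left hsum (norm_nonneg U)
      linarith
    have h1 : (nn j : ℝ) * (6 * (nn j : ℝ) * e) = (nn j : ℝ) * (β j * (δ / 2)) := by
      rw [he]; field_simp; norm_num
    have h2 : (nn j : ℝ) * (β j * (δ / 2)) ≤ ‖U‖ := by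
      have : (nn j : ℝ) * (β j * δ) = (nn j : ℝ) * (β j * (δ / 2)) +
        (nn j : ℝ) * (β j * (δ / 2)) := by ring
      linarith
    have h3 := one_le_β_sq_nn j
    calc δ / 2 = 1 * (δ / 2) := (one_mul _).symm
      _ ≤ (β j ^ 2 * (nn j : ℝ)) * (δ / 2) := by gcongr
      _ = ((nn j : ℝ) * (β j * (δ / 2))) * β j := by ring
      _ ≤ ‖U‖ * β j := by gcongr
  have hlim : Tendsto (fun k : ℕ => ‖U‖ * β (2 * k + 2)) atTop (𝓝 (‖U‖ * 0)) := by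
    refine Tendsto.const_mul _ (tendsto_β.comp ?_)
    exact tendsto_atTop_mono (fun k => (by omega : k ≤ 2 * k + 2)) tendsto_id
  rw [mul_zero] at hlim
  have := ge_of_tendsto hlim (Eventually.of_forall fun k =>
    hall (2 * k + 2) ⟨k + 1, by ring⟩ (by omega))
  linarith

end Pool.Agent.L0h84.RG
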