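import Pool.Agent.R184CA.Weak

/-! Scalar weak nullness of rapid block sequences and a perturbed chain evaluation. -/

namespace Pool.Agent.L0h84.RG

open Filter Topology Pool.Agent.R184CA Pool.Agent.R184CA.BD

variable {𝕜 : Type*} [RCLike 𝕜] {E : Type*} [NormedAddCommGroup E] [NormedSpace 𝕜 E]
variable {X : Type*} [NormedAddCommGroup X] [NormedSpace 𝕜 X]
variable {D : Nodes 𝕜 E} {V : ℕ → Submodule 𝕜 E} {ok : ℕ → (E →L[𝕜] E) → Prop}
variable {B : BD D V X} {C : ℝ}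

lemma RV_smul {a b : ℕ} {y : X} {c : 𝕜} (hc : ‖c‖ ≤ 1) (hy : B.RV C a b y) :
    B.RV C a b (c • y) := by
  obtain ⟨h1, h2, h3, h4, h5⟩ := hy
  have hC : 0 ≤ C := (norm_nonneg y).trans h4
  refine ⟨h1, by rw [map_smul, h2, smul_zero], by rw [map_smul, h3], ?_, fun γ hγ hw => ?_⟩
  · rw [norm_smul]
    calc ‖c‖ * ‖y‖ ≤ 1 * C := by gcongr
      _ = C := one_mul C
  · rw [map_smul, norm_smul]
    calc ‖c‖ * ‖B.co γ y‖ ≤ 1 * (C * β (D.wt γ)) := by
          gcongr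
          exact h5 γ hγ hw
      _ = _ := one_mul _

/-- Bounded functionals are small on rapid vectors which start late. -/
lemma weak_null_scalar (hD : D.Ok V ok) (B : BD D V X) (ψ : X →L[𝕜] 𝕜) {ε : ℝ} (hε : 0 < ε)
    (hC : 0 ≤ C) : ∃ M, ∀ a b y, M ≤ a → B.RV C a b y → ‖ψ y‖ ≤ ε := by
  by_contra hcon
  push Not at hcon
  choose a b y hMa hRV hbig using hcon
  let M : ℕ → ℕ := fun k => Nat.rec 0 (fun _ m => b m) k
  have hM : ∀ k, M (k + 1) = b (M k) := fun k => rfl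
  have hpq : ∀ k, a (M k) ≤ b (M k) := fun k => (hRV (M k)).1
  have hs : ∀ k, b (M k) ≤ a (M (k + 1)) := fun k => by
    have := hMa (M (k + 1)); rw [hM] at this
    exact this
  have hsep := sep_of_succ hpq hs
  have hph : ∀ k, ∃ c : 𝕜, ‖c‖ = 1 ∧ ((‖ψ (y (M k))‖ : ℝ) : 𝕜) = c * ψ (y (M k)) := fun k =>
    RCLike.exists_norm_eq_mul_self _
  choose u hu1 hu2 using hph
  have hall : ∀ j, j ≠ 0 → ε ≤ ‖ψ‖ * (9 * C) * β j := by
    intro j hj
    have hseq : B.RSeq C (nn j) (fun k => a (M k)) (fun k => b (M k))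
        (fun k => u k • y (M k)) :=
      ⟨fun k _ => RV_smul (hu1 k).le (hRV _), fun k l hkl _ => hsep _ _ hkl⟩
    have hup := (hseq.upper hD hC (S := Finset.range (nn j))
      (fun k hk => Finset.mem_range.1 hk) hj (by rw [Finset.card_range])).1
    have hlow : (nn j : ℝ) * ε ≤ ‖ψ (∑ k ∈ Finset.range (nn j), u k • y (M k))‖ := by
      have e1 : ψ (∑ k ∈ Finset.range (nn j), u k • y (M k)) =
          ((∑ k ∈ Finset.range (nn j), ‖ψ (y (M k))‖ : ℝ) : 𝕜) := by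
        rw [map_sum]
        push_cast
        refine Finset.sum_congr rfl fun k _ => ?_
        rw [map_smul, smul_eq_mul]; exact (hu2 k).symm
      rw [e1, norm_realK, Real.norm_eq_abs, abs_of_nonneg (Finset.sum_nonneg fun _ _ => norm_nonneg _)]
      calc (nn j : ℝ) * ε = ∑ k ∈ Finset.range (nn j), ε := by
            rw [Finset.sum_const, Finset.card_range, nsmul_eq_mul]
        _ ≤ _ := Finset.sum_le_sum fun k _ => (hbig _).le
    have hT : ‖ψ (∑ k ∈ Finset.range (nn j), u k • y (M k))‖ ≤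
        ‖ψ‖ * (9 * C * β j * (nn j : ℝ)) :=
      (ψ.le_opNorm _).trans (by gcongr)
    have hnn : (0 : ℝ) < nn j := by exact_mod_cast nn_pos j
    have h2 : (nn j : ℝ) * ε ≤ (nn j : ℝ) * (‖ψ‖ * (9 * C) * β j) := by
      calc _ ≤ _ := hlow.trans hT
        _ = _ := by ring
    exact le_of_mul_le_mul_left h2 hnn
  have hlim0 : Tendsto (fun j => ‖ψ‖ * (9 * C) * β j) atTop (𝓝 (‖ψ‖ * (9 * C) * 0)) :=
    tendsto_β.const_mul _
  rw [mul_zero] at hlim0
  have : ε ≤ 0 := by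
    refine ge_of_tendsto hlim0 ?_
    filter_upwards [eventually_ne_atTop 0] with j hj using hall j hj
  linarith

lemma weak_null_set (hD : D.Ok V ok) (B : BD D V X) (T : X →L[𝕜] X) {Ψ : Set (X →L[𝕜] 𝕜)}
    (hΨ : Ψ.Finite) {ε : ℝ} (hε : 0 < ε) (hC : 0 ≤ C) :
    ∃ M, ∀ a b y, M ≤ a → B.RV C a b y → ∀ ψ ∈ Ψ, ‖ψ (T y)‖ ≤ ε := by
  choose M hM using fun ψ : X →L[𝕜] 𝕜 => weak_null_scalar hD B (ψ.comp T) hε hC
  refine ⟨hΨ.toFinset.sup M, fun a b y ha hy ψ hψ => ?_⟩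
  exact hM ψ a b y ((Finset.le_sup (f := M) (hΨ.mem_toFinset.2 hψ)).trans ha) hy

/-- the functional `f0 (fn γ ·)` -/
noncomputable def fnL (B : BD D V X) (f0 : E →L[𝕜] 𝕜) (γ : ℕ) : X →L[𝕜] 𝕜 :=
  f0.comp (∑ i, (D.A γ i).comp ((B.co (D.η γ i)).comp
    (ContinuousLinearMap.id 𝕜 X - B.P (D.s γ i))))

lemma fnL_apply (B : BD D V X) (f0 : E →L[𝕜] 𝕜) (γ : ℕ) (x : X) :
    fnL B f0 γ x = f0 (B.fn γ x) := by
  unfold fnL fn
  simp

/-- the functional `f0 (dd γ ·)` -/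
noncomputable def ddL (B : BD D V X) (f0 : E →L[𝕜] 𝕜) (γ : ℕ) : X →L[𝕜] 𝕜 :=
  f0.comp ((B.co γ).comp (ContinuousLinearMap.id 𝕜 X - B.P γ))

lemma ddL_apply (B : BD D V X) (f0 : E →L[𝕜] 𝕜) (γ : ℕ) (x : X) :
    ddL B f0 γ x = f0 (B.dd γ x) := by
  unfold ddL dd
  simp

/-- the functionals up to `n` -/
def Psi (B : BD D V X) (f0 : E →L[𝕜] 𝕜) (n : ℕ) : Set (X →L[𝕜] 𝕜) :=
  (fnL B f0 '' Set.Iic n) ∪ (ddL B f0 '' Set.Iic n)

lemma Psi_finite (B : BD D V X) (f0 : E →L[𝕜] 𝕜) (n : ℕ) : (Psi B f0 n).Finite :=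
  ((Set.finite_Iic n).image _).union ((Set.finite_Iic n).image _)

lemma norm_f0_le {f0 : E →L[𝕜] 𝕜} (hf0 : ‖f0‖ ≤ 1) (v : E) : ‖f0 v‖ ≤ ‖v‖ := by
  refine (f0.le_opNorm v).trans ?_
  have := norm_nonneg v
  nlinarith

/-- tails of a vector which is essentially supported below `m` -/
lemma norm_tail_le (B : BD D V X) {m s : ℕ} (hms : m ≤ s) {y : X} {e : ℝ}
    (h : ‖y - B.P m y‖ ≤ e) : ‖y - B.P s y‖ ≤ 3 * e := by
  have h1 : y - B.P s y = (y - B.P m y) - B.P s (y - B.P m y) := by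
    rw [map_sub, B.P_P, min_eq_right hms]; abel
  rw [h1]
  exact (B.norm_sub_P s _).trans (by linarith)

/-- Perturbed evaluation along a chain. -/
lemma chain_lower (hD : D.Ok V ok) {f0 : E →L[𝕜] 𝕜} (hf0 : ‖f0‖ ≤ 1) {n w : ℕ} {ξ : ℕ → ℕ}
    {y : ℕ → X} (h0 : ξ 0 = 0)
    (hξ : ∀ r < n, ξ (r + 1) ≠ 0 ∧ D.par (ξ (r + 1)) = ξ r ∧ D.wt (ξ (r + 1)) = w)
    {e δ : ℝ} (he : 0 ≤ e)
    (h1 : ∀ r < n, ‖y r - B.P (ξ (r + 1)) (y r)‖ ≤ e)
    (h2 : ∀ r < n, ∀ γ ≤ ξ r, ‖f0 (B.fn γ (y r))‖ ≤ e ∧ ‖f0 (B.dd γ (y r))‖ ≤ e)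
    (h3 : ∀ r < n, δ ≤ RCLike.re (f0 (B.fn (ξ (r + 1)) (y r)))) :
    (n : ℝ) * (β w * δ) - (n : ℝ) * (6 * (n : ℝ) * e) ≤
      RCLike.re (f0 (B.co (ξ n) (∑ r ∈ Finset.range n, y r))) := by
  have hlt : ∀ r < n, ξ r < ξ (r + 1) := fun r hr => by
    have := hD.par_lt (ξ (r + 1)) (hξ r hr).1
    rw [(hξ r hr).2.1] at this; exact this
  have hmono : ∀ r r', r ≤ r' → r' ≤ n → ξ r ≤ ξ r' := by
    intro r r' hrr' hr'
    induction r' with
    | zero => have : r = 0 := by omega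
              rw [this]
    | succ k ih =>
      rcases Nat.le_succ_iff.1 hrr' with h | h
      · exact (ih h (by omega)).trans (hlt k (by omega)).le
      · rw [h]
  have hβ := β_pos w
  have hβ1 := β_le_one w
  set Y := ∑ r ∈ Finset.range n, y r with hY
  have key : ∀ m ≤ n, (m : ℝ) * (β w * δ) - (m : ℝ) * (6 * (n : ℝ) * e) ≤
      RCLike.re (f0 (B.co (ξ m) Y)) := by
    intro m
    induction m with
    | zero => intro _; rw [h0, B.co_zero]; simp
    | succ m ih =>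
      intro hm
      have hm' : m < n := by omega
      obtain ⟨g1, g2, g3⟩ := hξ m hm'
      have hfn : ∀ r ∈ Finset.range n, r ≠ m → ‖f0 (B.fn (ξ (m + 1)) (y r))‖ ≤ 3 * e := by
        intro r hr hrm
        rw [Finset.mem_range] at hr
        rcases lt_or_gt_of_ne hrm with h | h
        · refine (norm_f0_le hf0 _).trans (B.norm_fn_le hD g1 fun i => ?_)
          refine (B.norm_co _ _).trans (norm_tail_le B ?_ (h1 r hr))
          have a1 := hmono (r + 1) m h (by omega)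
          have a2 := hD.s_gt (ξ (m + 1)) i g1
          rw [g2] at a2
          omega
        · have := (h2 r hr (ξ (m + 1)) (hmono (m + 1) r h hr.le)).1
          linarith
      have hdd : ∀ r ∈ Finset.range n, ‖f0 (B.dd (ξ (m + 1)) (y r))‖ ≤ 3 * e := by
        intro r hr
        rw [Finset.mem_range] at hr
        rcases lt_or_ge m r with h | h
        · have := (h2 r hr (ξ (m + 1)) (hmono (m + 1) r h hr.le)).2
          linarith
        · refine (norm_f0_le hf0 _).trans ((B.norm_co _ _).trans (norm_tail_le B ?_ (h1 r hr)))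
          exact hmono (r + 1) (m + 1) (by omega) hm
      have hsumfn : δ - 3 * (n : ℝ) * e ≤ RCLike.re (f0 (B.fn (ξ (m + 1)) Y)) := by
        rw [hY, fn_sum, map_sum, re_sumK, ← Finset.add_sum_erase _ _ (Finset.mem_range.2 hm')]
        have a1 : |∑ r ∈ (Finset.range n).erase m,
            (RCLike.re (f0 (B.fn (ξ (m + 1)) (y r))) : ℝ)| ≤ 3 * (n : ℝ) * e := by
          calc _ ≤ ∑ r ∈ (Finset.range n).erase m,
                |(RCLike.re (f0 (B.fn (ξ (m + 1)) (y r))) : ℝ)| := Finset.abs_sum_le_sum_abs _ _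
            _ ≤ ∑ r ∈ (Finset.range n).erase m, 3 * e := Finset.sum_le_sum fun r hr => by
                rw [Finset.mem_erase] at hr
                exact (abs_re_le_normK _).trans (hfn r hr.2 hr.1)
            _ = (((Finset.range n).erase m).card : ℝ) * (3 * e) := by
                rw [Finset.sum_const, nsmul_eq_mul]
            _ ≤ ((Finset.range n).card : ℝ) * (3 * e) := by
                gcongr
                exact Finset.erase_subset _ _
            _ = _ := by rw [Finset.card_range]; ring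
        have a2 := (abs_le.1 a1).1
        have a3 := h3 m hm'
        linarith
      have hsumdd : -(3 * (n : ℝ) * e) ≤ RCLike.re (f0 (B.dd (ξ (m + 1)) Y)) := by
        rw [hY, dd_sum, map_sum, re_sumK]
        have a1 : |∑ r ∈ Finset.range n,
            (RCLike.re (f0 (B.dd (ξ (m + 1)) (y r))) : ℝ)| ≤ 3 * (n : ℝ) * e := by
          calc _ ≤ ∑ r ∈ Finset.range n,
                |(RCLike.re (f0 (B.dd (ξ (m + 1)) (y r))) : ℝ)| := Finset.abs_sum_le_sum_abs _ _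
            _ ≤ ∑ r ∈ Finset.range n, 3 * e := Finset.sum_le_sum fun r hr =>
                (abs_re_le_normK _).trans (hdd r hr)
            _ = _ := by
                rw [Finset.sum_const, nsmul_eq_mul, Finset.card_range]; ring
        exact (abs_le.1 a1).1
      have hih := ih (by omega)
      rw [B.co_eq _ _ g1, g2, g3, map_add f0, map_add f0, map_smul f0, smul_eq_mul, add_reK,
        add_reK, re_ofReal_mulK]
      have hne : 0 ≤ 3 * (n : ℝ) * e := by positivity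
      have hb : β w * (δ - 3 * (n : ℝ) * e) ≤ β w * RCLike.re (f0 (B.fn (ξ (m + 1)) Y)) := by
        gcongr
      have hb2 : β w * (3 * (n : ℝ) * e) ≤ 3 * (n : ℝ) * e := by nlinarith
      push_cast
      nlinarith
  exact key n le_rfl

end Pool.Agent.L0h84.RG
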