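import Pool.Agent.R184CA.Exact
import Pool.Agent.L0h84.RG.Weak2

/-! Exact pairs, without smallness of the images on initial segments. -/

namespace Pool.Agent.L0h84.RG

open Filter Topology Pool.Agent.R184CA Pool.Agent.R184CA.BD

variable {𝕜 : Type*} [RCLike 𝕜] {E : Type*} [NormedAddCommGroup E] [NormedSpace 𝕜 E]
variable {X : Type*} [NormedAddCommGroup X] [NormedSpace 𝕜 X]
variable {D : Nodes 𝕜 E} {V : ℕ → Submodule 𝕜 E} {ok : ℕ → (E →L[𝕜] E) → Prop}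

/-- admissible terms starting after `N` -/
def Adm (V : ℕ → Submodule 𝕜 E) (ok : ℕ → (E →L[𝕜] E) → Prop) (N : ℕ) (s η : Fin 2 → ℕ)
    (A : Fin 2 → (E →L[𝕜] E)) : Prop :=
  (∀ i, N ≤ s i) ∧ (∀ i, ok (η i) (A i)) ∧ ‖A 0‖ + ‖A 1‖ ≤ 1 ∧
    (∃ M, ∀ γ, M ≤ γ → ∀ i, ∀ v ∈ V (η i), A i v ∈ V γ)

/-- A supply of bad vectors for the operator `T`. -/
def Supply2 (B : BD D V X) (ok : ℕ → (E →L[𝕜] E) → Prop) (T : X →L[𝕜] X) (f0 : E →L[𝕜] 𝕜)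
    (C δ : ℝ) : Prop :=
  ∀ (N : ℕ) (ε : ℝ), 0 < ε → ∃ (p q : ℕ) (x : X) (s η : Fin 2 → ℕ) (A : Fin 2 → (E →L[𝕜] E)),
    N ≤ p ∧ B.RV C p q x ∧ Adm V ok N s η A ∧
    ‖∑ i, A i (B.co (η i) (x - B.P (s i) x))‖ ≤ ε ∧
    δ ≤ (RCLike.re (f0 (∑ i, A i (B.co (η i) (T x - B.P (s i) (T x))))))

variable {B : BD D V X} {C δ : ℝ} {f0 : E →L[𝕜] 𝕜}

/-- properties of a step of a chain -/
structure CStep (B : BD D V X) (f0 : E →L[𝕜] 𝕜) (δ e : ℝ) (j N0 : ℕ) {Z : Type*} (U : Z → X)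
    (G : ℕ → Z → (Fin 2 → ℕ) → (Fin 2 → ℕ) → (Fin 2 → (E →L[𝕜] E)) → Prop) (L : Z → ℕ)
    (Ψ : Set (X →L[𝕜] 𝕜)) (ξ : ℕ) (z : Z) (ξ' : ℕ) : Prop where
  c1 : G (max (ξ + 1) N0) z (D.s ξ') (D.η ξ') (D.A ξ')
  c2 : max (L z) N0 ≤ ξ'
  c3 : ξ' ≠ 0
  c4 : D.par ξ' = ξ
  c5 : D.wt ξ' = j
  c6 : ∀ i, N0 ≤ D.s ξ' i
  c7 : ∀ ψ ∈ Ψ, ‖ψ (U z)‖ ≤ e
  c8 : ∀ γ ≤ ξ, ‖f0 (B.fn γ (U z))‖ ≤ e ∧ ‖f0 (B.dd γ (U z))‖ ≤ e
  c9 : δ ≤ RCLike.re (f0 (B.fn ξ' (U z)))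
  c10 : ‖U z - B.P ξ' (U z)‖ ≤ e

section gen

variable {Z : Type*} {U : Z → X}
  {G : ℕ → Z → (Fin 2 → ℕ) → (Fin 2 → ℕ) → (Fin 2 → (E →L[𝕜] E)) → Prop} {L : Z → ℕ} {e : ℝ}

lemma cstep (hD : D.Ok V ok) {j : ℕ} (hj : Even j) (N0 : ℕ) (he : 0 < e)
    (H : ∀ (N : ℕ) (Ψ : Set (X →L[𝕜] 𝕜)), Ψ.Finite → ∃ z s η A, G N z s η A ∧
      Adm V ok N s η A ∧ (∀ ψ ∈ Ψ, ‖ψ (U z)‖ ≤ e) ∧
      δ ≤ (RCLike.re (f0 (∑ i, A i (B.co (η i) (U z - B.P (s i) (U z)))))))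
    {Ψ : Set (X →L[𝕜] 𝕜)} (hΨ : Ψ.Finite)
    (ξ : ℕ) (hξ : ξ = 0 ∨ (ξ ≠ 0 ∧ D.wt ξ = j ∧ D.age ξ < nn j)) :
    ∃ (z : Z) (ξ' : ℕ), CStep B f0 δ e j N0 U G L Ψ ξ z ξ' := by
  obtain ⟨z, s, η, A, h1, ⟨h2, h3, h4, h5⟩, h6, h7⟩ := H (max (ξ + 1) N0) (Ψ ∪ Psi B f0 ξ)
    (hΨ.union (Psi_finite B f0 ξ))
  obtain ⟨t, ht⟩ := B.eventually_P (U z) he
  obtain ⟨ξ', g1, g2, g3, g4, g5, g6, g7⟩ := hD.rich_even j hj ξ hξ s η A
    (fun i => by have := h2 i; omega) h3 h4 h5 (max (max (L z) N0) t)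
  have hfn : ∀ y, B.fn ξ' y = ∑ i, A i (B.co (η i) (y - B.P (s i) y)) := by
    intro y; unfold BD.fn; rw [g5, g6, g7]
  refine ⟨z, ξ', ⟨?_, (le_max_left _ _).trans g1, g2, g3, g4, ?_, ?_, ?_, ?_, ht _ (by omega)⟩⟩
  · rw [g5, g6, g7]; exact h1
  · intro i; rw [g5]; have := h2 i; omega
  · exact fun ψ hψ => h6 ψ (Or.inl hψ)
  · intro γ hγ
    have a1 := h6 (fnL B f0 γ) (Or.inr (Or.inl ⟨γ, hγ, rfl⟩))
    have a2 := h6 (ddL B f0 γ) (Or.inr (Or.inr ⟨γ, hγ, rfl⟩))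
    rw [fnL_apply] at a1
    rw [ddL_apply] at a2
    exact ⟨a1, a2⟩
  · rw [hfn]; exact h7

/-- The sequence of vectors and nodes behind an exact pair. -/
lemma cseq (hD : D.Ok V ok) {j : ℕ} (hj : Even j) (N0 : ℕ) (he : 0 < e)
    (H : ∀ (N : ℕ) (Ψ : Set (X →L[𝕜] 𝕜)), Ψ.Finite → ∃ z s η A, G N z s η A ∧
      Adm V ok N s η A ∧ (∀ ψ ∈ Ψ, ‖ψ (U z)‖ ≤ e) ∧
      δ ≤ (RCLike.re (f0 (∑ i, A i (B.co (η i) (U z - B.P (s i) (U z)))))))
    {Ψ : Set (X →L[𝕜] 𝕜)} (hΨ : Ψ.Finite) :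
    ∃ (ξs : ℕ → ℕ) (zs : ℕ → Z), ξs 0 = 0 ∧
      ∀ r < nn j, CStep B f0 δ e j N0 U G L Ψ (ξs r) (zs r) (ξs (r + 1)) := by
  have hstep := fun (ξ : {ξ : ℕ // ξ = 0 ∨ (ξ ≠ 0 ∧ D.wt ξ = j ∧ D.age ξ < nn j)}) =>
    cstep (L := L) hD hj N0 he H hΨ ξ.1 ξ.2
  choose X' ξ' h using hstep
  classical
  obtain ⟨zd, -⟩ := H 0 ∅ Set.finite_empty
  -- total step
  let F : ℕ → ℕ := fun ξ => if h : ξ = 0 ∨ (ξ ≠ 0 ∧ D.wt ξ = j ∧ D.age ξ < nn j)
    then ξ' ⟨ξ, h⟩ else 0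
  let ξs : ℕ → ℕ := fun r => Nat.rec 0 (fun _ m => F m) r
  have hξ0 : ξs 0 = 0 := rfl
  have hξs : ∀ r, ξs (r + 1) = F (ξs r) := fun _ => rfl
  have hinv : ∀ r ≤ nn j, (ξs r = 0 ∧ r = 0) ∨ (ξs r ≠ 0 ∧ D.wt (ξs r) = j ∧ D.age (ξs r) = r) := by
    intro r
    induction r with
    | zero => intro _; left; exact ⟨rfl, rfl⟩
    | succ r ih =>
      intro hr
      right
      have hI : ξs r = 0 ∨ (ξs r ≠ 0 ∧ D.wt (ξs r) = j ∧ D.age (ξs r) < nn j) := by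
        rcases ih (by omega) with h | h
        · left; exact h.1
        · right; exact ⟨h.1, h.2.1, by omega⟩
      have hF : ξs (r + 1) = ξ' ⟨ξs r, hI⟩ := by rw [hξs]; simp only [F]; rw [dif_pos hI]
      rw [hF]
      refine ⟨(h _).c3, (h _).c5, ?_⟩
      rw [hD.age_succ _ (h _).c3, (h _).c4]
      rcases ih (by omega) with h | h
      · change D.age (ξs r) + 1 = _
        rw [h.1, hD.age_zero, h.2]
      · change D.age (ξs r) + 1 = _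
        rw [h.2.2]
  have hI : ∀ r < nn j, ξs r = 0 ∨ (ξs r ≠ 0 ∧ D.wt (ξs r) = j ∧ D.age (ξs r) < nn j) := by
    intro r hr
    rcases hinv r hr.le with h | h
    · left; exact h.1
    · right; exact ⟨h.1, h.2.1, by omega⟩
  have hF : ∀ r (hr : r < nn j), ξs (r + 1) = ξ' ⟨ξs r, hI r hr⟩ := by
    intro r hr; rw [hξs]; simp only [F]; rw [dif_pos (hI r hr)]
  refine ⟨ξs, fun r => if hr : r < nn j then X' ⟨ξs r, hI r hr⟩ else zd, hξ0, ?_⟩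
  intro r hr
  simp only [dif_pos hr]
  rw [hF r hr]
  exact h ⟨ξs r, hI r hr⟩

end gen

variable {T : X →L[𝕜] X}

/-- Exact pairs. -/
lemma exact_pair2 (hD : D.Ok V ok) (hf0 : ‖f0‖ ≤ 1) (hC : 0 ≤ C) (hsup : Supply2 B ok T f0 C δ)
    {j : ℕ} (hj : Even j) (hj0 : j ≠ 0) (N0 : ℕ) {ε : ℝ} (hε : 0 < ε) (hδ : 0 < δ)
    {Ψ : Set (X →L[𝕜] 𝕜)} (hΨ : Ψ.Finite) :
    ∃ (x : X) (η : ℕ), N0 ≤ η ∧ B.P N0 x = 0 ∧ B.P η x = x ∧ η ≠ 0 ∧ D.wt η = j ∧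
      ‖x‖ ≤ 12 * C ∧
      (∀ γ, γ ≠ 0 → ∀ s, D.wt γ ≠ j →
        ‖B.co γ (x - B.P s x)‖ ≤ 12 * C * β (min (D.wt γ) j)) ∧
      (∀ γ, ‖B.dd γ x‖ ≤ 12 * C * β j) ∧ ‖B.co η x‖ ≤ ε ∧
      δ / 2 ≤ (RCLike.re (f0 (B.co η (T x)))) ∧ (∀ ψ ∈ Ψ, ‖ψ (T x)‖ ≤ ε) ∧
      (∀ y, B.co η (B.P N0 y) = 0) := by
  have hβ := β_pos j
  have hβ1 := β_le_one j
  have hn : (0 : ℝ) < nn j := by exact_mod_cast nn_pos j
  -- small epsilon
  obtain ⟨e, he0, he1, he2⟩ : ∃ e : ℝ, 0 < e ∧ e ≤ ε * β j ∧ 6 * (nn j : ℝ) * e ≤ δ / 2 * β j := by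
    refine ⟨min (ε * β j) (δ * β j / (12 * (nn j : ℝ))), by positivity, min_le_left _ _, ?_⟩
    have h1 := min_le_right (ε * β j) (δ * β j / (12 * (nn j : ℝ)))
    calc _ ≤ 6 * (nn j : ℝ) * (δ * β j / (12 * (nn j : ℝ))) := by gcongr
      _ = _ := by field_simp; norm_num
  -- the supply in the general form
  let G : ℕ → (X × ℕ × ℕ) → (Fin 2 → ℕ) → (Fin 2 → ℕ) → (Fin 2 → (E →L[𝕜] E)) → Prop :=
    fun N z s η A => N ≤ z.2.1 ∧ B.RV C z.2.1 z.2.2 z.1 ∧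
      ‖∑ i, A i (B.co (η i) (z.1 - B.P (s i) z.1))‖ ≤ e
  have H : ∀ (N : ℕ) (Ψ : Set (X →L[𝕜] 𝕜)), Ψ.Finite → ∃ (z : X × ℕ × ℕ) (s η : Fin 2 → ℕ)
      (A : Fin 2 → (E →L[𝕜] E)), G N z s η A ∧
      Adm V ok N s η A ∧ (∀ ψ ∈ Ψ, ‖ψ (T z.1)‖ ≤ e) ∧
      δ ≤ (RCLike.re (f0 (∑ i, A i (B.co (η i) (T z.1 - B.P (s i) (T z.1)))))) := by
    intro N Ψ' hΨ'
    obtain ⟨M, hM⟩ := weak_null_set hD B T hΨ' he0 hC
    obtain ⟨p, q, x, s, η, A, h1, h2, ⟨h3, h4⟩, h5, h6⟩ := hsup (max N M) e he0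
    exact ⟨(x, p, q), s, η, A, ⟨(le_max_left _ _).trans h1, h2, h5⟩,
      ⟨fun i => (le_max_left _ _).trans (h3 i), h4⟩,
      hM p q x ((le_max_right _ _).trans h1) h2, h6⟩
  obtain ⟨ξs, zs, hξ0, prop⟩ := cseq (L := fun z => z.2.2) (U := fun z : X × ℕ × ℕ => T z.1)
    hD hj N0 he0 H hΨ
  obtain ⟨xs, hxs⟩ : ∃ xs : ℕ → X, ∀ r, xs r = (zs r).1 := ⟨_, fun _ => rfl⟩
  obtain ⟨ps, hps⟩ : ∃ ps : ℕ → ℕ, ∀ r, ps r = (zs r).2.1 := ⟨_, fun _ => rfl⟩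
  obtain ⟨qs, hqs⟩ : ∃ qs : ℕ → ℕ, ∀ r, qs r = (zs r).2.2 := ⟨_, fun _ => rfl⟩
  have hG : ∀ r < nn j, max (ξs r + 1) N0 ≤ ps r ∧ B.RV C (ps r) (qs r) (xs r) ∧
      ‖B.fn (ξs (r + 1)) (xs r)‖ ≤ e := by
    intro r hr
    rw [hps, hqs, hxs]
    exact (prop r hr).c1
  have hq : ∀ r < nn j, qs r ≤ ξs (r + 1) := fun r hr => by
    rw [hqs]; exact (le_max_left _ _).trans (prop r hr).c2
  have hlt : ∀ r < nn j, ξs r < ξs (r + 1) := fun r hr => by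
    have := hD.par_lt _ (prop r hr).c3
    rw [(prop r hr).c4] at this; exact this
  have hmono : ∀ r r', r ≤ r' → r' ≤ nn j → ξs r ≤ ξs r' := by
    intro r r' hrr' hr'
    induction r' with
    | zero => have : r = 0 := by omega
              rw [this]
    | succ k ih =>
      rcases Nat.le_succ_iff.1 hrr' with h | h
      · exact (ih h (by omega)).trans (hlt k (by omega)).le
      · rw [h]
  have hseq : B.RSeq C (nn j) ps qs xs := by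
    refine ⟨fun k hk => (hG k hk).2.1, fun k l hkl hl => ?_⟩
    have a1 := hq k (by omega)
    have a2 := (hG l hl).1
    have a3 := hmono (k + 1) l hkl hl.le
    omega
  obtain ⟨S, hS⟩ : ∃ S, S = Finset.range (nn j) := ⟨_, rfl⟩
  have hSlt : ∀ k ∈ S, k < nn j := fun k hk => by rw [hS] at hk; exact Finset.mem_range.1 hk
  have hScard : S.card = nn j := by rw [hS]; exact Finset.card_range _
  obtain ⟨Y, hY⟩ : ∃ Y, Y = ∑ k ∈ S, xs k := ⟨_, rfl⟩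
  obtain ⟨c, hc⟩ : ∃ c : ℝ, c = (β j * (nn j : ℝ))⁻¹ := ⟨_, rfl⟩
  have hcpos : 0 < c := by rw [hc]; positivity
  have hcβn : c * (β j * (nn j : ℝ)) = 1 := by rw [hc]; exact inv_mul_cancel₀ (by positivity)
  have hcβ : c ≤ β j := by
    have h1 : 1 ≤ β j * (β j * (nn j : ℝ)) := by
      have := one_le_β_sq_nn j; nlinarith
    calc c = c * 1 := (mul_one _).symm
      _ ≤ c * (β j * (β j * (nn j : ℝ))) := by gcongr
      _ = β j * (c * (β j * (nn j : ℝ))) := by ring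
      _ = β j := by rw [hcβn, mul_one]
  have hcn : c * (nn j : ℝ) = (β j)⁻¹ := by
    rw [hc]; field_simp
  have hnormc : ‖(c : 𝕜)‖ = c := by rw [norm_realK, Real.norm_eq_abs, abs_of_pos hcpos]
  have hn0 : 0 < nn j := nn_pos j
  have hξn : ξs (nn j) ≠ 0 ∧ D.wt (ξs (nn j)) = j := by
    have := prop (nn j - 1) (by omega)
    rw [Nat.sub_add_cancel hn0] at this
    exact ⟨this.c3, this.c5⟩
  have hchain : ∀ r < nn j, ξs (r + 1) ≠ 0 ∧ D.par (ξs (r + 1)) = ξs r ∧ D.wt (ξs (r + 1)) = j :=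
    fun r hr => ⟨(prop r hr).c3, (prop r hr).c4, (prop r hr).c5⟩
  -- the vector and the node
  refine ⟨(c : 𝕜) • Y, ξs (nn j), ?_, ?_, ?_, hξn.1, hξn.2, ?_, ?_, ?_, ?_, ?_, ?_, ?_⟩
  · -- N0 ≤ η
    have a1 := (prop 0 hn0).c2
    have a4 := hmono 1 (nn j) hn0 le_rfl
    have : ξs (0 + 1) = ξs 1 := rfl
    omega
  · rw [map_smul, hY, map_sum, Finset.sum_eq_zero, smul_zero]
    intro k hk
    have := (hG k (hSlt k hk)).1
    exact B.P_of_P_zero (hG k (hSlt k hk)).2.1.2.1 (by omega)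
  · rw [map_smul, hY, map_sum]
    congr 1
    refine Finset.sum_congr rfl fun k hk => ?_
    have h1 := hq k (hSlt k hk)
    have h2 := hmono (k + 1) (nn j) (hSlt k hk) le_rfl
    exact B.P_of_P_eq (hG k (hSlt k hk)).2.1.2.2.1 (by omega)
  · -- norm
    have := (hseq.upper hD hC hSlt hj0 hScard.le).1
    rw [← hY] at this
    rw [norm_smul, hnormc]
    calc c * ‖Y‖ ≤ c * (9 * C * β j * (nn j : ℝ)) := by gcongr
      _ = 9 * C * (c * (β j * (nn j : ℝ))) := by ring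
      _ = 9 * C := by rw [hcβn, mul_one]
      _ ≤ 12 * C := by linarith
  · -- other weights
    intro γ hγ s hw
    obtain ⟨e', he', heq⟩ := hseq.tail hC hSlt s
    rw [← hY] at heq
    have hsub : ∀ k ∈ S.filter (fun k => s ≤ ps k), k < nn j := fun k hk =>
      hSlt k (Finset.mem_filter.1 hk).1
    have hcard : (S.filter (fun k => s ≤ ps k)).card ≤ nn j := by
      rw [← hScard]; exact Finset.card_le_card (Finset.filter_subset _ _)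
    have hval : ‖B.co γ ((c : 𝕜) • Y - B.P s ((c : 𝕜) • Y))‖ ≤
        c * (‖B.co γ (∑ k ∈ S.filter (fun k => s ≤ ps k), xs k)‖ + 3 * C) := by
      rw [map_smul, ← smul_sub, map_smul, norm_smul, hnormc, heq, map_add]
      gcongr
      exact (norm_add_le _ _).trans (add_le_add le_rfl ((B.norm_co _ _).trans he'))
    refine hval.trans ?_
    rcases lt_or_gt_of_ne hw with h | h
    · rw [min_eq_left h.le]
      have h1 := (hseq.upper hD hC hsub hj0 hcard).2 γ hγ h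
      have hβw := β_pos (D.wt γ)
      have hβle : β j ≤ β (D.wt γ) := β_anti h.le
      calc _ ≤ c * (9 * C * β j * β (D.wt γ) * (nn j : ℝ) + 3 * C) := by gcongr
        _ = 9 * C * β (D.wt γ) * (c * (β j * (nn j : ℝ))) + 3 * C * c := by ring
        _ ≤ 9 * C * β (D.wt γ) + 3 * C * β (D.wt γ) := by
            rw [hcβn, mul_one]; gcongr; exact hcβ.trans hβle
        _ = _ := by ring
    · rw [min_eq_right h.le]
      have h1 := hseq.high hD hC hsub γ hγ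
      have hβw := β_pos (D.wt γ)
      have hβle : β (D.wt γ) ≤ β j ^ 2 := by rw [← β_succ]; exact β_anti h
      have hcard' : ((S.filter (fun k => s ≤ ps k)).card : ℝ) ≤ nn j := by exact_mod_cast hcard
      calc _ ≤ c * ((C + 4 * C * β (D.wt γ) * ((S.filter (fun k => s ≤ ps k)).card : ℝ)) + 3 * C) := by
            gcongr
        _ ≤ c * ((C + 4 * C * β j ^ 2 * (nn j : ℝ)) + 3 * C) := by gcongr
        _ = 4 * C * β j * (c * (β j * (nn j : ℝ))) + 4 * C * c := by ring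
        _ ≤ 4 * C * β j * 1 + 4 * C * β j := by rw [hcβn]; gcongr
        _ ≤ 12 * C * β j := by nlinarith [mul_nonneg hC hβ.le]
  · intro γ
    have := hseq.cut_dd hC hSlt γ
    rw [← hY] at this
    rw [dd_smul, norm_smul, hnormc]
    calc c * ‖B.dd γ Y‖ ≤ β j * (3 * C) := by gcongr
      _ ≤ _ := by nlinarith [mul_nonneg hC hβ.le]
  · -- value of x at η
    have hev := B.chain_eval hD (n := nn j) (w := j) (ξ := ξs) (y := xs) hξ0 hchain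
      (fun r hr => ⟨B.P_of_P_zero (hG r hr).2.1.2.1 (by have := (hG r hr).1; omega),
        B.P_of_P_eq (hG r hr).2.1.2.2.1 (hq r hr)⟩) (nn j) le_rfl
    rw [← hS, ← hY] at hev
    rw [map_smul, norm_smul, hnormc, hev]
    have : ‖∑ r ∈ S, (β j : 𝕜) • B.fn (ξs (r + 1)) (xs r)‖ ≤
        (nn j : ℝ) * (β j * e) := by
      calc _ ≤ ∑ r ∈ S, ‖(β j : 𝕜) • B.fn (ξs (r + 1)) (xs r)‖ := norm_sum_le _ _
        _ ≤ ∑ r ∈ S, β j * e := Finset.sum_le_sum fun r hr => by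
            rw [norm_smul, norm_realK, Real.norm_eq_abs, abs_of_pos hβ]
            gcongr
            exact (hG r (hSlt r hr)).2.2
        _ = _ := by rw [Finset.sum_const, hScard, nsmul_eq_mul]
    calc _ ≤ c * ((nn j : ℝ) * (β j * e)) := by gcongr
      _ = (c * (β j * (nn j : ℝ))) * e := by ring
      _ = e := by rw [hcβn, one_mul]
      _ ≤ ε := by nlinarith
  · -- value of T x at η
    have hlow := chain_lower (B := B) hD hf0 (n := nn j) (w := j) (ξ := ξs)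
      (y := fun r => T (xs r)) hξ0 hchain he0.le
      (fun r hr => by rw [hxs]; exact (prop r hr).c10)
      (fun r hr => by rw [hxs]; exact (prop r hr).c8)
      (fun r hr => by rw [hxs]; exact (prop r hr).c9)
    rw [← hS, ← map_sum, ← hY] at hlow
    rw [map_smul, map_smul, map_smul, smul_eq_mul, re_ofReal_mulK]
    have h1 : (nn j : ℝ) * (6 * (nn j : ℝ) * e) ≤ (nn j : ℝ) * (δ / 2 * β j) := by gcongr
    calc δ / 2 = (c * (β j * (nn j : ℝ))) * (δ / 2) := by rw [hcβn, one_mul]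
      _ = c * ((nn j : ℝ) * (β j * δ) - (nn j : ℝ) * (δ / 2 * β j)) := by ring
      _ ≤ _ := by
          gcongr
          linarith
  · intro ψ hψ
    rw [map_smul, map_smul, norm_smul, hnormc, hY, map_sum, map_sum]
    calc c * ‖∑ k ∈ S, ψ (T (xs k))‖ ≤ c * ((nn j : ℝ) * e) := by
          gcongr
          calc _ ≤ ∑ k ∈ S, ‖ψ (T (xs k))‖ := norm_sum_le _ _
            _ ≤ ∑ k ∈ S, e := Finset.sum_le_sum fun k hk => by
                rw [hxs]; exact (prop k (hSlt k hk)).c7 ψ hψ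
            _ = _ := by rw [Finset.sum_const, hScard, nsmul_eq_mul]
      _ = (c * (nn j : ℝ)) * e := by ring
      _ = (β j)⁻¹ * e := by rw [hcn]
      _ ≤ (β j)⁻¹ * (ε * β j) := by gcongr
      _ = ε := by field_simp
  · intro y
    have key : ∀ m ≤ nn j, B.co (ξs m) (B.P N0 y) = 0 := by
      intro m
      induction m with
      | zero => intro _; rw [hξ0, B.co_zero]
      | succ m ih =>
        intro hm
        have pm := prop m (by omega)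
        have hPs : ∀ t, N0 ≤ t → B.P t (B.P N0 y) = B.P N0 y := fun t ht => by
          rw [B.P_P, min_eq_right ht]
        rw [B.co_eq _ _ pm.c3, pm.c4, ih (by omega), zero_add]
        have h1 : B.dd (ξs (m + 1)) (B.P N0 y) = 0 := by
          unfold BD.dd
          rw [hPs _ ((le_max_right _ _).trans pm.c2), sub_self, map_zero]
        have h2 : B.fn (ξs (m + 1)) (B.P N0 y) = 0 := by
          unfold BD.fn
          refine Finset.sum_eq_zero fun i _ => ?_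
          rw [hPs _ (pm.c6 i), sub_self, map_zero, map_zero]
        rw [h1, h2, smul_zero, add_zero]
    exact key _ le_rfl

end Pool.Agent.L0h84.RG
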