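import Pool.Agent.L0h84.RG.Small

/-! Decompositions of the Bourgain-Delbaen sum of copies of `c₀`. -/

namespace Pool.Agent.L0h84.RG

open Filter Topology ZeroAtInfty BoundedContinuousFunction Pool.Agent.R184CA
  Pool.Agent.R184CA.BD

variable {𝕜 : Type} [RCLike 𝕜]
variable {X : Type*} [NormedAddCommGroup X] [NormedSpace 𝕜 X]
variable {D : Nodes 𝕜 C₀(ℕ, 𝕜)} {B : BD D (V0 𝕜) X}

/-- the initial projections factor through `c₀` -/
lemma P_factor (hD : D.Ok (V0 𝕜) (ok0 𝕜)) (B : BD D (V0 𝕜) X) (M : ℕ) :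
    ∃ (j : X →L[𝕜] C₀(ℕ, 𝕜)) (k : C₀(ℕ, 𝕜) →L[𝕜] X), ∀ x, k (j x) = B.P M x := by
  induction M with
  | zero => exact ⟨0, 0, fun x => by rw [B.P_zero' hD]; rfl⟩
  | succ M ih =>
    rcases Nat.eq_zero_or_pos M with h0 | h0
    · exact ⟨0, 0, fun x => by rw [h0, zero_add, P_one]; rfl⟩
    · obtain ⟨j, k, hjk⟩ := ih
      obtain ⟨i, hi, -⟩ := exists_iE B h0.ne'
      obtain ⟨e⟩ := split_iso 𝕜 𝕜
      refine ⟨(e.symm : C₀(ℕ, 𝕜) × C₀(ℕ, 𝕜) →L[𝕜] C₀(ℕ, 𝕜)).comp (j.prod (ddC B M)),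
        (k.comp (ContinuousLinearMap.fst 𝕜 _ _) + i.comp (ContinuousLinearMap.snd 𝕜 _ _)).comp
          (e : C₀(ℕ, 𝕜) →L[𝕜] C₀(ℕ, 𝕜) × C₀(ℕ, 𝕜)), fun x => ?_⟩
      have h1 : ∀ w : C₀(ℕ, 𝕜) × C₀(ℕ, 𝕜),
          ((k.comp (ContinuousLinearMap.fst 𝕜 _ _) + i.comp (ContinuousLinearMap.snd 𝕜 _ _)).comp
          (e : C₀(ℕ, 𝕜) →L[𝕜] C₀(ℕ, 𝕜) × C₀(ℕ, 𝕜))) (e.symm w) = k w.1 + i w.2 := by
        intro w
        change k (e (e.symm w)).1 + i (e (e.symm w)).2 = _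
        rw [e.apply_symm_apply]
      have h2 := h1 (j x, ddC B M x)
      refine h2.trans ?_
      rw [P_succ B h0.ne', ← hjk, hi, ddC_apply]

section dec

variable {Y : Type*} [NormedAddCommGroup Y] [NormedSpace 𝕜 Y]
variable {Z : Type*} [NormedAddCommGroup Z] [NormedSpace 𝕜 Z]

/-- the projection onto the first summand -/
noncomputable def q1 (e : (Y × Z) ≃L[𝕜] X) : X →L[𝕜] X :=
  ((e : (Y × Z) →L[𝕜] X).comp (ContinuousLinearMap.inl 𝕜 Y Z)).comp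
    ((ContinuousLinearMap.fst 𝕜 Y Z).comp (e.symm : X →L[𝕜] Y × Z))

lemma q1_apply (e : (Y × Z) ≃L[𝕜] X) (x : X) : q1 e x = e ((e.symm x).1, 0) := rfl

lemma q1_idem (e : (Y × Z) ≃L[𝕜] X) : q1 e * q1 e = q1 e := by
  ext1 x
  change q1 e (q1 e x) = q1 e x
  rw [q1_apply, q1_apply, e.symm_apply_apply]

lemma one_sub_q1 (e : (Y × Z) ≃L[𝕜] X) (x : X) :
    (1 - q1 e) x = e (0, (e.symm x).2) := by
  obtain ⟨w, rfl⟩ := e.surjective x
  have h1 : (1 - q1 e) (e w) = e w - q1 e (e w) := rfl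
  rw [h1, q1_apply, e.symm_apply_apply, ← map_sub]
  congr 1
  refine Prod.ext ?_ ?_
  · change w.1 - w.1 = 0
    rw [sub_self]
  · change w.2 - 0 = w.2
    rw [sub_zero]

lemma side (hD : D.Ok (V0 𝕜) (ok0 𝕜)) (B : BD D (V0 𝕜) X) [CompleteSpace Y]
    (e : (Y × Z) ≃L[𝕜] X) (hY : ¬ FiniteDimensional 𝕜 Y) (hQ : Sm B (q1 e)) :
    Nonempty (Y ≃L[𝕜] C₀(ℕ, 𝕜)) ∧ Nonempty (Z ≃L[𝕜] X) := by
  obtain ⟨iY, hiY⟩ : ∃ iY : Y →L[𝕜] X, ∀ y, iY y = e (y, 0) :=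
    ⟨(e : (Y × Z) →L[𝕜] X).comp (ContinuousLinearMap.inl 𝕜 Y Z), fun _ => rfl⟩
  obtain ⟨iZ, hiZ⟩ : ∃ iZ : Z →L[𝕜] X, ∀ z, iZ z = e (0, z) :=
    ⟨(e : (Y × Z) →L[𝕜] X).comp (ContinuousLinearMap.inr 𝕜 Y Z), fun _ => rfl⟩
  obtain ⟨pY, hpY⟩ : ∃ pY : X →L[𝕜] Y, ∀ x, pY x = (e.symm x).1 :=
    ⟨(ContinuousLinearMap.fst 𝕜 Y Z).comp (e.symm : X →L[𝕜] Y × Z), fun _ => rfl⟩
  obtain ⟨pZ, hpZ⟩ : ∃ pZ : X →L[𝕜] Z, ∀ x, pZ x = (e.symm x).2 :=
    ⟨(ContinuousLinearMap.snd 𝕜 Y Z).comp (e.symm : X →L[𝕜] Y × Z), fun _ => rfl⟩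
  -- `Y` is complemented in `c₀`
  have hCpY : Cp 𝕜 Y C₀(ℕ, 𝕜) := by
    obtain ⟨M, hM⟩ := hQ (1 / (2 * ((‖pY‖ + 1) * (‖iY‖ + 1)))) (by positivity)
    obtain ⟨j, k, hjk⟩ := P_factor hD B M
    refine Cp_of_near (j.comp iY) (pY.comp k) (c := 1 / 2) (by norm_num) (by norm_num) fun y => ?_
    have e1 : (pY.comp k) ((j.comp iY) y) - y = pY (B.P M (iY y) - iY y) := by
      have a1 : (pY.comp k) ((j.comp iY) y) = pY (k (j (iY y))) := rfl
      have a2 : pY (iY y) = y := by rw [hpY, hiY, e.symm_apply_apply]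
      rw [a1, hjk, map_sub, a2]
    have e2 : q1 e (iY y) = iY y := by rw [q1_apply, hiY, e.symm_apply_apply]
    have h1 := hM M le_rfl (iY y)
    rw [e2] at h1
    rw [e1]
    refine (pY.le_opNorm _).trans ?_
    rw [norm_sub_rev]
    calc ‖pY‖ * ‖iY y - B.P M (iY y)‖ ≤ (‖pY‖ + 1) *
          (1 / (2 * ((‖pY‖ + 1) * (‖iY‖ + 1))) * ((‖iY‖ + 1) * ‖y‖)) := by
          gcongr
          · linarith
          · refine h1.trans ?_
            gcongr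
            refine (iY.le_opNorm y).trans ?_
            gcongr
            linarith
      _ = _ := by field_simp
  obtain ⟨eY⟩ := iso_c0_of_Cp hY hCpY
  -- `c₀` is complemented in `Z`
  have hCpZ : Cp 𝕜 C₀(ℕ, 𝕜) Z := by
    obtain ⟨M, hM⟩ := hQ (1 / 4) (by norm_num)
    obtain ⟨i, hi1, hi2⟩ := exists_iE B (Nat.succ_ne_zero M)
    refine Cp_of_near (pZ.comp i) ((ddC B (M + 1)).comp iZ) (c := 1 / 2) (by norm_num)
      (by norm_num) fun h => ?_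
    have e1 : ((ddC B (M + 1)).comp iZ) ((pZ.comp i) h) - h =
        -(B.co (M + 1) (q1 e (i h) - B.P (M + 1) (q1 e (i h)))) := by
      have a1 : ((ddC B (M + 1)).comp iZ) ((pZ.comp i) h) = B.dd (M + 1) (iZ (pZ (i h))) := rfl
      have a2 : iZ (pZ (i h)) = i h - q1 e (i h) := by
        rw [hiZ, hpZ, ← one_sub_q1]; rfl
      have a3 : B.dd (M + 1) (i h) = h := by
        obtain ⟨g1, g2, g3, g4⟩ := B.sv_spec (Nat.succ_ne_zero M) (mem_V0 (M + 1) h)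
        rw [hi1]
        unfold BD.dd
        rw [g1, sub_zero, g3]
      rw [a1, a2, dd_sub, a3]
      unfold BD.dd
      abel
    rw [e1, norm_neg]
    refine (B.norm_co _ _).trans ((hM (M + 1) (Nat.le_succ M) (i h)).trans ?_)
    have := hi2 h
    linarith
  obtain ⟨eZ⟩ := prod_c0_of_Cp' hCpZ
  refine ⟨⟨eY⟩, ⟨?_⟩⟩
  exact eZ.symm.trans (((ContinuousLinearEquiv.refl 𝕜 Z).prodCongr eY.symm).trans
    ((ContinuousLinearEquiv.prodComm 𝕜 Z Y).trans e))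

/-- The main theorem on decompositions, in terms of an isomorphism `Y × Z ≃ X`. -/
theorem decomp (hD : D.Ok (V0 𝕜) (ok0 𝕜)) (B : BD D (V0 𝕜) X) [CompleteSpace Y]
    [CompleteSpace Z] (e : (Y × Z) ≃L[𝕜] X) (hY : ¬ FiniteDimensional 𝕜 Y)
    (hZ : ¬ FiniteDimensional 𝕜 Z) :
    (Nonempty (Y ≃L[𝕜] C₀(ℕ, 𝕜)) ∧ Nonempty (Z ≃L[𝕜] X)) ∨
    (Nonempty (Z ≃L[𝕜] C₀(ℕ, 𝕜)) ∧ Nonempty (Y ≃L[𝕜] X)) := by
  rcases Sm_or hD B (q1 e) (q1_idem e) with h | h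
  · left; exact side hD B e hY h
  · right
    refine side hD B ((ContinuousLinearEquiv.prodComm 𝕜 Z Y).trans e) hZ ?_
    have : q1 ((ContinuousLinearEquiv.prodComm 𝕜 Z Y).trans e) = 1 - q1 e := by
      ext1 x
      rw [one_sub_q1, q1_apply]
      rfl
    rw [this]; exact h

end dec

/-- `X` is not isomorphic to its square. -/
theorem not_iso_sq (B : BD D (V0 𝕜) X) (hD : D.Ok (V0 𝕜) (ok0 𝕜)) (e : (X × X) ≃L[𝕜] X) :
    False := by
  obtain ⟨i1, hi1⟩ : ∃ i1 : X →L[𝕜] X, ∀ y, i1 y = e (y, 0) :=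
    ⟨(e : (X × X) →L[𝕜] X).comp (ContinuousLinearMap.inl 𝕜 X X), fun _ => rfl⟩
  obtain ⟨i2, hi2⟩ : ∃ i2 : X →L[𝕜] X, ∀ z, i2 z = e (0, z) :=
    ⟨(e : (X × X) →L[𝕜] X).comp (ContinuousLinearMap.inr 𝕜 X X), fun _ => rfl⟩
  obtain ⟨p1, hp1⟩ : ∃ p1 : X →L[𝕜] X, ∀ x, p1 x = (e.symm x).1 :=
    ⟨(ContinuousLinearMap.fst 𝕜 X X).comp (e.symm : X →L[𝕜] X × X), fun _ => rfl⟩
  obtain ⟨p2, hp2⟩ : ∃ p2 : X →L[𝕜] X, ∀ x, p2 x = (e.symm x).2 :=
    ⟨(ContinuousLinearMap.snd 𝕜 X X).comp (e.symm : X →L[𝕜] X × X), fun _ => rfl⟩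
  rcases Sm_or hD B (q1 e) (q1_idem e) with h | h
  · refine not_Sm_one B ?_
    have h1 := (h.comp_right i1).comp_left hD p1
    have h2 : p1.comp ((q1 e).comp i1) = 1 := by
      ext1 x
      change p1 (q1 e (i1 x)) = x
      rw [q1_apply, hi1, hp1, e.symm_apply_apply, e.symm_apply_apply]
    rwa [h2] at h1
  · refine not_Sm_one B ?_
    have h1 := (h.comp_right i2).comp_left hD p2
    have h2 : p2.comp ((1 - q1 e).comp i2) = 1 := by
      ext1 x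
      change p2 ((1 - q1 e) (i2 x)) = x
      rw [one_sub_q1, hi2, hp2, e.symm_apply_apply, e.symm_apply_apply]
    rwa [h2] at h1

theorem not_iso_c0 (B : BD D (V0 𝕜) X) (hD : D.Ok (V0 𝕜) (ok0 𝕜)) :
    ¬ Nonempty (X ≃L[𝕜] C₀(ℕ, 𝕜)) := by
  rintro ⟨g⟩
  obtain ⟨e⟩ := split_iso 𝕜 𝕜
  exact not_iso_sq B hD ((g.prodCongr g).trans (e.symm.trans g.symm))

/-- `c₀` is infinite dimensional -/
lemma c0_infinite : ¬ FiniteDimensional 𝕜 C₀(ℕ, 𝕜) := by
  classical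
  intro hfd
  have key : ∀ n : ℕ, n ≤ Module.finrank 𝕜 C₀(ℕ, 𝕜) := by
    intro n
    let L : (Fin n → 𝕜) →ₗ[𝕜] C₀(ℕ, 𝕜) :=
      { toFun := fun v => cmk (fun k => if h : k < n then v ⟨k, h⟩ else 0) (by
          refine tendsto_const_nhds.congr' ?_
          filter_upwards [eventually_ge_atTop n] with k hk
          rw [dif_neg (by omega)])
        map_add' := fun v w => by
          ext k
          change (if h : k < n then v ⟨k, h⟩ + w ⟨k, h⟩ else 0) =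
            (if h : k < n then v ⟨k, h⟩ else 0) + (if h : k < n then w ⟨k, h⟩ else 0)
          split_ifs <;> simp
        map_smul' := fun c v => by
          ext k
          change (if h : k < n then c * v ⟨k, h⟩ else 0) =
            c * (if h : k < n then v ⟨k, h⟩ else 0)
          split_ifs <;> simp }
    have hL : Function.Injective L := by
      intro v w hvw
      funext k
      have h1 := DFunLike.congr_fun hvw (k : ℕ)
      have h2 : ∀ v : Fin n → 𝕜, L v (k : ℕ) = if h : (k : ℕ) < n then v ⟨k, h⟩ else 0 :=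
        fun _ => rfl
      rw [h2, h2, dif_pos k.2, dif_pos k.2] at h1
      exact h1
    have := LinearMap.finrank_le_finrank_of_injective hL
    rwa [Module.finrank_fin_fun] at this
  have := key (Module.finrank 𝕜 C₀(ℕ, 𝕜) + 1)
  omega

/-- `c₀` is separable -/
lemma c0_separable : TopologicalSpace.SeparableSpace C₀(ℕ, 𝕜) := by
  rw [← TopologicalSpace.isSeparable_univ_iff]
  have h1 : ∀ n : ℕ, TopologicalSpace.IsSeparable (Set.range fun x : C₀(ℕ, 𝕜) => C0.Q n x) := by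
    intro n
    let L : (Fin n → 𝕜) → C₀(ℕ, 𝕜) := fun v => ∑ i : Fin n, v i • (C0.e (i : ℕ) : C₀(ℕ, 𝕜))
    have hL : Continuous L := by
      refine continuous_finsetSum _ fun i _ => ?_
      exact (continuous_apply i).smul continuous_const
    refine (TopologicalSpace.isSeparable_range hL).mono ?_
    rintro _ ⟨x, rfl⟩
    refine ⟨fun i => x i, ?_⟩
    change ∑ i : Fin n, x i • (C0.e (i : ℕ) : C₀(ℕ, 𝕜)) = C0.Q n x
    rw [Q_eq_sum, Finset.sum_range]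
  have h2 : TopologicalSpace.IsSeparable
      (⋃ n : ℕ, Set.range fun x : C₀(ℕ, 𝕜) => C0.Q n x) :=
    TopologicalSpace.IsSeparable.iUnion h1
  refine h2.closure.mono ?_
  intro x _
  exact mem_closure_of_tendsto (C0.Q_lim x) (Eventually.of_forall fun n =>
    Set.mem_iUnion.2 ⟨n, x, rfl⟩)

/-- `X` is separable -/
lemma X_separable (hD : D.Ok (V0 𝕜) (ok0 𝕜)) (B : BD D (V0 𝕜) X) :
    TopologicalSpace.SeparableSpace X := by
  have := c0_separable (𝕜 := 𝕜)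
  rw [← TopologicalSpace.isSeparable_univ_iff]
  have h1 : ∀ n : ℕ, TopologicalSpace.IsSeparable (Set.range fun x : X => B.P n x) := by
    intro n
    obtain ⟨j, k, hjk⟩ := P_factor hD B n
    refine (TopologicalSpace.isSeparable_range k.continuous).mono ?_
    rintro _ ⟨x, rfl⟩
    exact ⟨j x, hjk x⟩
  have h2 : TopologicalSpace.IsSeparable (⋃ n : ℕ, Set.range fun x : X => B.P n x) :=
    TopologicalSpace.IsSeparable.iUnion h1
  refine h2.closure.mono ?_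
  intro x _
  exact mem_closure_of_tendsto (B.P_tendsto x) (Eventually.of_forall fun n =>
    Set.mem_iUnion.2 ⟨n, x, rfl⟩)

/-- a nontrivial decomposition -/
lemma exists_decomp (B : BD D (V0 𝕜) X) :
    ∃ Y Z : Submodule 𝕜 X, IsClosed (Y : Set X) ∧ IsClosed (Z : Set X) ∧ IsCompl Y Z ∧
      ¬ FiniteDimensional 𝕜 Y ∧ ¬ FiniteDimensional 𝕜 Z := by
  have hcl : ∀ T : X →L[𝕜] X, IsClosed ((LinearMap.ker (T : X →ₗ[𝕜] X) : Submodule 𝕜 X) : Set X) :=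
    fun T => T.isClosed_ker
  refine ⟨LinearMap.ker ((1 - B.P 2 : X →L[𝕜] X) : X →ₗ[𝕜] X),
    LinearMap.ker ((B.P 2 : X →L[𝕜] X) : X →ₗ[𝕜] X), hcl _, hcl _, ?_, ?_, ?_⟩
  · refine ⟨?_, ?_⟩
    · rw [Submodule.disjoint_def]
      intro x hx hx'
      have h1 : x - B.P 2 x = 0 := hx
      have h2 : B.P 2 x = 0 := hx'
      rw [h2, sub_zero] at h1
      exact h1
    · rw [codisjoint_iff, eq_top_iff]
      intro x _
      refine Submodule.mem_sup.2 ⟨B.P 2 x, ?_, x - B.P 2 x, ?_, by abel⟩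
      · change B.P 2 x - B.P 2 (B.P 2 x) = 0
        rw [B.P_P, min_self, sub_self]
      · change B.P 2 (x - B.P 2 x) = 0
        rw [map_sub, B.P_P, min_self, sub_self]
  · intro hfd
    obtain ⟨i, hi1, -⟩ := exists_iE B one_ne_zero
    have hmem : ∀ h, (i : C₀(ℕ, 𝕜) →ₗ[𝕜] X) h ∈
        LinearMap.ker ((1 - B.P 2 : X →L[𝕜] X) : X →ₗ[𝕜] X) := by
      intro h
      change i h - B.P 2 (i h) = 0
      rw [hi1]
      have := (B.sv_spec one_ne_zero (mem_V0 1 h)).2.1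
      rw [this, sub_self]
    have hinj : Function.Injective (LinearMap.codRestrict _ (i : C₀(ℕ, 𝕜) →ₗ[𝕜] X) hmem) := by
      intro h h' heq
      have h1 : i h = i h' := congrArg Subtype.val heq
      rw [hi1, hi1] at h1
      rw [← (B.sv_spec one_ne_zero (mem_V0 1 h)).2.2.1, h1,
        (B.sv_spec one_ne_zero (mem_V0 1 h')).2.2.1]
    exact c0_infinite (FiniteDimensional.of_injective _ hinj)
  · intro hfd
    obtain ⟨i, hi1, -⟩ := exists_iE B two_ne_zero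
    have hmem : ∀ h, (i : C₀(ℕ, 𝕜) →ₗ[𝕜] X) h ∈
        LinearMap.ker ((B.P 2 : X →L[𝕜] X) : X →ₗ[𝕜] X) := by
      intro h
      change B.P 2 (i h) = 0
      rw [hi1]
      exact (B.sv_spec two_ne_zero (mem_V0 2 h)).1
    have hinj : Function.Injective (LinearMap.codRestrict _ (i : C₀(ℕ, 𝕜) →ₗ[𝕜] X) hmem) := by
      intro h h' heq
      have h1 : i h = i h' := congrArg Subtype.val heq
      rw [hi1, hi1] at h1
      rw [← (B.sv_spec two_ne_zero (mem_V0 2 h)).2.2.1, h1,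
        (B.sv_spec two_ne_zero (mem_V0 2 h')).2.2.1]
    exact c0_infinite (FiniteDimensional.of_injective _ hinj)

end Pool.Agent.L0h84.RG

namespace Pool.Agent.L0h84.RG

open Filter Topology BoundedContinuousFunction Pool.Agent.R184CA

lemma complete_top {𝕜 : Type*} [RCLike 𝕜] {E : Type*} [NormedAddCommGroup E] [NormedSpace 𝕜 E]
    [CompleteSpace E] {D : Nodes 𝕜 E} {V : ℕ → Submodule 𝕜 E} {ok : ℕ → (E →L[𝕜] E) → Prop}
    (hD : D.Ok V ok) (hV : ∀ n, V n = ⊤) : CompleteSpace (XX hD) := by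
  have h2 : IsClosed {x : ℕ →ᵇ E | x 0 = 0} :=
    isClosed_eq (BoundedContinuousFunction.evalCLM 𝕜 0).continuous continuous_const
  have h3 : IsClosed {x : ℕ →ᵇ E | Tendsto (fun n => Pb hD n x) atTop (𝓝 x)} := by
    refine isClosed_of_closure_subset fun x hx => ?_
    rw [Set.mem_ofPred_eq, Metric.tendsto_atTop]
    intro ε hε
    obtain ⟨y, hy, hxy⟩ := Metric.mem_closure_iff.1 hx (ε / 6) (by positivity)
    rw [Set.mem_ofPred_eq, Metric.tendsto_atTop] at hy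
    obtain ⟨N, hN⟩ := hy (ε / 2) (by positivity)
    refine ⟨N, fun n hn => ?_⟩
    have a1 := hN n hn
    rw [dist_eq_norm] at a1 hxy ⊢
    have a2 : Pb hD n x - x = Pb hD n (x - y) + (Pb hD n y - y) - (x - y) := by
      rw [map_sub]; abel
    rw [a2]
    have a3 := norm_Pb hD n (x - y)
    have a4 := norm_sub_le (Pb hD n (x - y) + (Pb hD n y - y)) (x - y)
    have a5 := norm_add_le (Pb hD n (x - y)) (Pb hD n y - y)
    linarith
  have h4 : (XX hD : Set (ℕ →ᵇ E)) = {x : ℕ →ᵇ E | x 0 = 0} ∩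
      {x : ℕ →ᵇ E | Tendsto (fun n => Pb hD n x) atTop (𝓝 x)} := by
    ext x
    constructor
    · rintro ⟨-, h5, h6⟩
      exact ⟨h5, h6⟩
    · rintro ⟨h5, h6⟩
      exact ⟨fun n => by rw [hV n]; exact Submodule.mem_top, h5, h6⟩
  have h5 : IsClosed (XX hD : Set (ℕ →ᵇ E)) := by
    rw [h4]; exact h2.inter h3
  exact h5.completeSpace_coe

end Pool.Agent.L0h84.RG
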