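import Pool.Agent.R184CA.C0
import Pool.Agent.L0h84.RG.Dep2

/-! Operators on the Bourgain-Delbaen sum of copies of `c₀`: scalar plus small. -/

namespace Pool.Agent.L0h84.RG

open Filter Topology ZeroAtInfty Pool.Agent.R184CA Pool.Agent.R184CA.BD

variable {𝕜 : Type} [RCLike 𝕜]

/-- coordinate functionals of `c₀` -/
noncomputable def ev (k : ℕ) : C₀(ℕ, 𝕜) →L[𝕜] 𝕜 :=
  LinearMap.mkContinuous
    { toFun := fun x => x k
      map_add' := fun _ _ => rfl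
      map_smul' := fun _ _ => rfl } 1
    (fun x => by rw [one_mul]; exact C0.norm_apply_le x k)

@[simp] lemma ev_apply (k : ℕ) (x : C₀(ℕ, 𝕜)) : ev k x = x k := rfl

lemma norm_ev (k : ℕ) : ‖(ev k : C₀(ℕ, 𝕜) →L[𝕜] 𝕜)‖ ≤ 1 :=
  LinearMap.mkContinuous_norm_le _ zero_le_one _

lemma add_smulC (a b : 𝕜) (v : C₀(ℕ, 𝕜)) : (a + b) • v = a • v + b • v := by
  ext n
  simp only [ZeroAtInftyContinuousMap.add_apply, ZeroAtInftyContinuousMap.smul_apply, smul_eq_mul]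
  ring

/-- rank one operators with values in the span of the first unit vector -/
noncomputable def rk (k : ℕ) (r : 𝕜) : C₀(ℕ, 𝕜) →L[𝕜] C₀(ℕ, 𝕜) :=
  LinearMap.mkContinuous
    { toFun := fun x => (r * x k) • (C0.e 0 : C₀(ℕ, 𝕜))
      map_add' := fun x y => by
        rw [ZeroAtInftyContinuousMap.add_apply, mul_add, add_smulC]
      map_smul' := fun c x => by
        rw [ZeroAtInftyContinuousMap.smul_apply, smul_eq_mul, mul_left_comm, mul_smul,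
          RingHom.id_apply] } ‖r‖
    (fun x => by
      change ‖(r * x k) • (C0.e 0 : C₀(ℕ, 𝕜))‖ ≤ _
      rw [norm_smul, norm_mul]
      have h1 := C0.norm_apply_le x k
      have h2 := C0.norm_e (𝕜 := 𝕜) 0
      calc ‖r‖ * ‖x k‖ * ‖(C0.e 0 : C₀(ℕ, 𝕜))‖ ≤ ‖r‖ * ‖x‖ * 1 := by gcongr
        _ = _ := mul_one _)

lemma rk_apply (k : ℕ) (r : 𝕜) (x : C₀(ℕ, 𝕜)) : rk k r x = (r * x k) • (C0.e 0 : C₀(ℕ, 𝕜)) := rfl

lemma norm_rk (k : ℕ) (r : 𝕜) : ‖rk k r‖ ≤ ‖r‖ :=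
  LinearMap.mkContinuous_norm_le _ (norm_nonneg _) _

/-- a countable dense set of scalars -/
noncomputable def Qd (𝕜 : Type) [RCLike 𝕜] : Set 𝕜 :=
  (TopologicalSpace.exists_countable_dense 𝕜).choose

lemma Qd_countable : (Qd 𝕜).Countable :=
  (TopologicalSpace.exists_countable_dense 𝕜).choose_spec.1

lemma Qd_dense : Dense (Qd 𝕜) :=
  (TopologicalSpace.exists_countable_dense 𝕜).choose_spec.2

lemma exists_Qd (z : 𝕜) {τ : ℝ} (hτ : 0 < τ) : ∃ r ∈ Qd 𝕜, ‖z - r‖ < τ := by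
  obtain ⟨r, hr, h⟩ := Metric.dense_iff.1 Qd_dense z τ hτ
  refine ⟨r, h, ?_⟩
  rw [Metric.mem_ball, dist_eq_norm] at hr
  rwa [norm_sub_rev]

/-- the full fibres -/
def V0 (𝕜 : Type) [RCLike 𝕜] : ℕ → Submodule 𝕜 C₀(ℕ, 𝕜) := fun _ => ⊤

/-- the admissible operators -/
def ok0 (𝕜 : Type) [RCLike 𝕜] (_ : ℕ) (A : C₀(ℕ, 𝕜) →L[𝕜] C₀(ℕ, 𝕜)) : Prop :=
  A = 0 ∨ A = ContinuousLinearMap.id 𝕜 C₀(ℕ, 𝕜) ∨ ∃ k, ∃ r ∈ Qd 𝕜, A = rk k r

lemma ok0_countable (η : ℕ) : {A | ok0 𝕜 η A}.Countable := by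
  have h : {A | ok0 𝕜 η A} ⊆ {0} ∪ ({ContinuousLinearMap.id 𝕜 C₀(ℕ, 𝕜)} ∪
      ⋃ k : ℕ, (rk k) '' (Qd 𝕜)) := by
    rintro A (h | h | ⟨k, r, hr, h⟩)
    · left; exact h
    · right; left; exact h
    · right; right; exact Set.mem_iUnion.2 ⟨k, r, hr, h.symm⟩
  exact ((Set.countable_singleton _).union ((Set.countable_singleton _).union
    (Set.countable_iUnion fun k => Qd_countable.image _))).mono h

theorem exists_nodes0 (𝕜 : Type) [RCLike 𝕜] : ∃ D : Nodes 𝕜 C₀(ℕ, 𝕜), D.Ok (V0 𝕜) (ok0 𝕜) :=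
  exists_nodes (V0 𝕜) (fun _ _ _ => le_rfl) (ok0 𝕜) ok0_countable (fun _ => Or.inl rfl)
    (fun _ => Or.inr (Or.inl rfl))

variable {X : Type*} [NormedAddCommGroup X] [NormedSpace 𝕜 X]
variable {D : Nodes 𝕜 C₀(ℕ, 𝕜)} {B : BD D (V0 𝕜) X} {C δ : ℝ}

lemma exists_coord (B : BD D (V0 𝕜) X) {x : X} {c : ℝ} (hc : 0 ≤ c) (h : c < ‖x‖) :
    ∃ η k, c < ‖B.co η x k‖ := by
  by_contra hcon
  push Not at hcon
  have := B.norm_le x c hc fun γ => (C0.norm_le_iff _ hc).2 fun k => hcon γ k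
  linarith

lemma norm_coord (B : BD D (V0 𝕜) X) (η k : ℕ) (x : X) : ‖B.co η x k‖ ≤ ‖x‖ :=
  (C0.norm_apply_le _ k).trans (B.norm_co η x)

/-- For rapid vectors, `(1 - P_N) T x` is close to a multiple of `x`. -/
lemma rapid_scalar (hD : D.Ok (V0 𝕜) (ok0 𝕜)) (B : BD D (V0 𝕜) X) (T : X →L[𝕜] X) (C : ℝ)
    (hδ : 0 < δ) : ∃ N, ∀ p q x, N ≤ p → B.RV C p q x →
      ∃ lam : 𝕜, ‖T x - B.P N (T x) - lam • x‖ ≤ δ := by
  by_contra hcon
  push Not at hcon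
  refine no_supply2 (B := B) (T := T) (f0 := ev 0) (C := C) (δ := δ / 8) hD (norm_ev 0)
    (by positivity) ?_
  intro N ε hε
  obtain ⟨p, q, x, hp, hRV, hbig⟩ := hcon N
  obtain ⟨y, hy⟩ : ∃ y, y = T x - B.P N (T x) := ⟨_, rfl⟩
  rw [← hy] at hbig
  have hx0 : x ≠ 0 := by
    rintro rfl
    have := hbig 0
    rw [hy, map_zero, map_zero, smul_zero, sub_zero, sub_zero, norm_zero] at this
    linarith
  have hxn : 0 < ‖x‖ := norm_pos_iff.2 hx0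
  obtain ⟨η0, k0, h0⟩ := exists_coord B (x := x) (c := ‖x‖ / 2) (by positivity) (by linarith)
  obtain ⟨f, hf⟩ : ∃ f, f = B.co η0 x k0 := ⟨_, rfl⟩
  rw [← hf] at h0
  have hf0 : f ≠ 0 := by
    rintro rfl
    rw [norm_zero] at h0; linarith
  obtain ⟨lam, hlam⟩ : ∃ lam, lam = B.co η0 y k0 / f := ⟨_, rfl⟩
  obtain ⟨η1, k1, h1⟩ := exists_coord B (x := y - lam • x) (c := δ) hδ.le (hbig lam)
  obtain ⟨a, ha⟩ : ∃ a, a = B.co η1 x k1 / f := ⟨_, rfl⟩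
  have han : ‖a‖ ≤ 2 := by
    rw [ha, norm_div, div_le_iff₀ (norm_pos_iff.2 hf0)]
    have := norm_coord B η1 k1 x
    linarith
  obtain ⟨w, hw⟩ : ∃ w, w = B.co η1 y k1 - a * B.co η0 y k0 := ⟨_, rfl⟩
  have hw1 : w = B.co η1 (y - lam • x) k1 := by
    rw [hw, map_sub, map_smul, ZeroAtInftyContinuousMap.sub_apply,
      ZeroAtInftyContinuousMap.smul_apply, smul_eq_mul, ha, hlam]
    ring
  have hwn : δ < ‖w‖ := by rw [hw1]; exact h1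
  have hax : B.co η1 x k1 - a * B.co η0 x k0 = 0 := by
    rw [ha, ← hf, div_mul_cancel₀ _ hf0, sub_self]
  obtain ⟨u, hu1, hu2⟩ := RCLike.exists_norm_eq_mul_self w
  -- approximation
  obtain ⟨τ, hτ0, hτ1, hτ2, hτ3⟩ : ∃ τ : ℝ, 0 < τ ∧ 2 * τ ≤ 1 / 4 ∧ 2 * τ * ‖x‖ ≤ ε ∧
      2 * τ * ‖y‖ ≤ δ / 8 := by
    refine ⟨min (1 / 8) (min (ε / (2 * ‖x‖)) (δ / (16 * (‖y‖ + 1)))), by positivity, ?_, ?_, ?_⟩
    · have := min_le_left (1 / 8) (min (ε / (2 * ‖x‖)) (δ / (16 * (‖y‖ + 1))))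
      linarith
    · have h2 := (min_le_right (1 / 8) (min (ε / (2 * ‖x‖)) (δ / (16 * (‖y‖ + 1))))).trans
        (min_le_left _ _)
      calc _ ≤ 2 * (ε / (2 * ‖x‖)) * ‖x‖ := by gcongr
        _ = ε := by field_simp
    · have h2 := (min_le_right (1 / 8) (min (ε / (2 * ‖x‖)) (δ / (16 * (‖y‖ + 1))))).trans
        (min_le_right _ _)
      calc _ ≤ 2 * (δ / (16 * (‖y‖ + 1))) * (‖y‖ + 1) := by gcongr; linarith
        _ = δ / 8 := by field_simp; norm_num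
  obtain ⟨r1, hr1, hr1'⟩ := exists_Qd (u / 4) hτ0
  obtain ⟨r0, hr0, hr0'⟩ := exists_Qd (-(u * a) / 4) hτ0
  have n1 : ‖u / 4‖ = 1 / 4 := by
    rw [norm_div, hu1, RCLike.norm_ofNat]
  have n0 : ‖-(u * a) / 4‖ ≤ 1 / 2 := by
    rw [norm_div, norm_neg, norm_mul, hu1, RCLike.norm_ofNat, one_mul]
    linarith
  have m1 : ‖r1‖ ≤ 1 / 4 + τ := by
    have : r1 = u / 4 - (u / 4 - r1) := by ring
    rw [this]
    refine (norm_sub_le _ _).trans ?_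
    linarith
  have m0 : ‖r0‖ ≤ 1 / 2 + τ := by
    have : r0 = -(u * a) / 4 - (-(u * a) / 4 - r0) := by ring
    rw [this]
    refine (norm_sub_le _ _).trans ?_
    linarith
  have hcomb : ∀ z : X, ∑ i : Fin 2, (![rk k0 r0, rk k1 r1] i)
      (B.co (![η0, η1] i) z) = (r0 * B.co η0 z k0 + r1 * B.co η1 z k1) •
        (C0.e 0 : C₀(ℕ, 𝕜)) := by
    intro z
    rw [Fin.sum_univ_two]
    change rk k0 r0 (B.co η0 z) + rk k1 r1 (B.co η1 z) = _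
    rw [rk_apply, rk_apply, ← add_smulC]
  refine ⟨p, q, x, fun _ => N, ![η0, η1], ![rk k0 r0, rk k1 r1], hp, hRV,
    ⟨fun _ => le_rfl, ?_, ?_, ⟨0, fun _ _ _ _ _ => Submodule.mem_top⟩⟩, ?_, ?_⟩
  · intro i
    fin_cases i
    · exact Or.inr (Or.inr ⟨k0, r0, hr0, rfl⟩)
    · exact Or.inr (Or.inr ⟨k1, r1, hr1, rfl⟩)
  · change ‖rk k0 r0‖ + ‖rk k1 r1‖ ≤ 1
    have := norm_rk k0 r0
    have := norm_rk k1 r1
    linarith
  · rw [hcomb, B.P_of_P_zero hRV.2.1 hp, sub_zero, norm_smul]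
    have e1 : r0 * B.co η0 x k0 + r1 * B.co η1 x k1 =
        u / 4 * (B.co η1 x k1 - a * B.co η0 x k0) -
        ((-(u * a) / 4 - r0) * B.co η0 x k0 + (u / 4 - r1) * B.co η1 x k1) := by ring
    rw [e1, hax, mul_zero, zero_sub, norm_neg]
    have e2 : ‖(-(u * a) / 4 - r0) * B.co η0 x k0 + (u / 4 - r1) * B.co η1 x k1‖ ≤
        τ * ‖x‖ + τ * ‖x‖ := by
      refine (norm_add_le _ _).trans ?_
      rw [norm_mul, norm_mul]
      gcongr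
      · exact norm_coord B _ _ _
      · exact norm_coord B _ _ _
    have e3 := C0.norm_e (𝕜 := 𝕜) 0
    calc _ ≤ (τ * ‖x‖ + τ * ‖x‖) * 1 := by gcongr
      _ = 2 * τ * ‖x‖ := by ring
      _ ≤ ε := hτ2
  · rw [hcomb, ← hy, ev_apply, ZeroAtInftyContinuousMap.smul_apply, C0.e_apply, if_pos rfl,
      smul_eq_mul, mul_one]
    have e1 : r0 * B.co η0 y k0 + r1 * B.co η1 y k1 =
        ((‖w‖ / 4 : ℝ) : 𝕜) -
        ((-(u * a) / 4 - r0) * B.co η0 y k0 + (u / 4 - r1) * B.co η1 y k1) := by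
      have hq : ((‖w‖ / 4 : ℝ) : 𝕜) = u * w / 4 := by
        push_cast
        exact congrArg (fun z : 𝕜 => z / 4) hu2
      rw [hq, hw]; ring
    rw [e1, sub_reK, RCLike.ofReal_re]
    have e2 : ‖(-(u * a) / 4 - r0) * B.co η0 y k0 + (u / 4 - r1) * B.co η1 y k1‖ ≤
        τ * ‖y‖ + τ * ‖y‖ := by
      refine (norm_add_le _ _).trans ?_
      rw [norm_mul, norm_mul]
      gcongr
      · exact norm_coord B _ _ _
      · exact norm_coord B _ _ _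
    have e3 := (abs_le.1 ((abs_re_le_normK _).trans e2)).2
    linarith

end Pool.Agent.L0h84.RG
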