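import Pool.Agent.L0h84.RG.Scal

/-! Operators on the Bourgain-Delbaen sum of copies of `c₀`: scalar plus small, continued. -/

namespace Pool.Agent.L0h84.RG

open Filter Topology ZeroAtInfty Pool.Agent.R184CA Pool.Agent.R184CA.BD

variable {𝕜 : Type} [RCLike 𝕜]
variable {X : Type*} [NormedAddCommGroup X] [NormedSpace 𝕜 X]
variable {D : Nodes 𝕜 C₀(ℕ, 𝕜)} {B : BD D (V0 𝕜) X} {C δ : ℝ}

lemma mem_V0 (γ : ℕ) (h : C₀(ℕ, 𝕜)) : h ∈ V0 𝕜 γ := Submodule.mem_top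

/-- the single node vector -/
noncomputable def v1 (B : BD D (V0 𝕜) X) (γ : ℕ) : X := B.sv γ (C0.e 0)

/-- the diagonal coefficient -/
noncomputable def lamc (B : BD D (V0 𝕜) X) (T : X →L[𝕜] X) (γ : ℕ) : 𝕜 :=
  B.dd γ (T (v1 B γ)) 0

lemma v1_spec (B : BD D (V0 𝕜) X) {γ : ℕ} (hγ : γ ≠ 0) :
    B.P γ (v1 B γ) = 0 ∧ B.P (γ + 1) (v1 B γ) = v1 B γ ∧ B.co γ (v1 B γ) = C0.e 0 ∧
      ‖v1 B γ‖ ≤ 2 := by
  obtain ⟨h1, h2, h3, h4⟩ := B.sv_spec hγ (mem_V0 γ (C0.e 0 : C₀(ℕ, 𝕜)))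
  refine ⟨h1, h2, h3, h4.trans ?_⟩
  have := C0.norm_e (𝕜 := 𝕜) 0
  linarith

lemma RV_v1 (hD : D.Ok (V0 𝕜) (ok0 𝕜)) (B : BD D (V0 𝕜) X) {γ : ℕ} (hγ : γ ≠ 0) :
    B.RV 6 (D.wt γ) (γ + 1) (v1 B γ) := by
  have := B.RV_sv hD hγ (mem_V0 γ (C0.e 0 : C₀(ℕ, 𝕜))) (C0.norm_e 0)
  rwa [mul_one] at this

lemma dd_P_zero (B : BD D (V0 𝕜) X) {N γ : ℕ} (h : N ≤ γ) (z : X) : B.dd γ (B.P N z) = 0 :=
  B.dd_eq_zero_of_P_eq (q := N) (by rw [B.P_P, min_self]) h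

lemma dd_v1 (B : BD D (V0 𝕜) X) {γ : ℕ} (hγ : γ ≠ 0) : B.dd γ (v1 B γ) = C0.e 0 := by
  obtain ⟨h1, -, h3, -⟩ := v1_spec B hγ
  unfold BD.dd
  rw [h1, sub_zero, h3]

lemma lamc_close (B : BD D (V0 𝕜) X) (T : X →L[𝕜] X) {γ N : ℕ} (hγ : γ ≠ 0) (hN : N ≤ γ)
    {mu : 𝕜} (h : ‖T (v1 B γ) - B.P N (T (v1 B γ)) - mu • v1 B γ‖ ≤ δ) :
    ‖lamc B T γ - mu‖ ≤ 3 * δ := by
  have h1 : B.dd γ (T (v1 B γ) - B.P N (T (v1 B γ)) - mu • v1 B γ) =
      B.dd γ (T (v1 B γ)) - mu • (C0.e 0 : C₀(ℕ, 𝕜)) := by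
    rw [dd_sub, dd_sub, dd_smul, dd_P_zero B hN, sub_zero, dd_v1 B hγ]
  have h2 : lamc B T γ - mu = (B.dd γ (T (v1 B γ) - B.P N (T (v1 B γ)) - mu • v1 B γ)) 0 := by
    rw [h1, ZeroAtInftyContinuousMap.sub_apply, ZeroAtInftyContinuousMap.smul_apply, C0.e_apply,
      if_pos rfl, smul_eq_mul, mul_one]
    rfl
  rw [h2]
  refine (C0.norm_apply_le _ _).trans ((B.norm_dd _ _).trans ?_)
  linarith

lemma rapid_lam (hD : D.Ok (V0 𝕜) (ok0 𝕜)) (B : BD D (V0 𝕜) X) (T : X →L[𝕜] X) (hC : 0 ≤ C)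
    {ε : ℝ} (hε : 0 < ε) : ∃ N, ∀ p q x, N ≤ p → B.RV C p q x → ∀ γ, γ ≠ 0 → q ≤ γ →
      N ≤ D.wt γ → ‖T x - B.P N (T x) - lamc B T γ • x‖ ≤ ε := by
  obtain ⟨δ, hδ⟩ : ∃ δ, δ = ε / (7 + 12 * C) := ⟨_, rfl⟩
  have hδ0 : 0 < δ := by rw [hδ]; positivity
  have hδε : δ * (7 + 12 * C) = ε := by rw [hδ]; field_simp
  obtain ⟨N, hN⟩ := rapid_scalar hD B T (C + 6) hδ0
  refine ⟨N, fun p q x hp hRV γ hγ hq hw => ?_⟩
  obtain ⟨g1, g2, g3, g4⟩ := v1_spec B hγ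
  have hRV2 := RV_v1 hD B hγ
  have hwt := hD.wt_le γ hγ
  have hadd : B.RV (C + 6) (min p (D.wt γ)) (γ + 1) (x + v1 B γ) :=
    ((hRV.mono_q (by omega)).mono_p (min_le_left _ _)).add (hRV2.mono_p (min_le_right _ _))
  obtain ⟨a, ha⟩ := hN p q x hp (hRV.mono (by linarith))
  obtain ⟨b, hb⟩ := hN _ _ _ hw (hRV2.mono (by linarith))
  obtain ⟨mu, hmu⟩ := hN _ _ _ (le_min hp hw) hadd
  have e1 : (a - mu) • x + (b - mu) • v1 B γ =
      (T (x + v1 B γ) - B.P N (T (x + v1 B γ)) - mu • (x + v1 B γ)) -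
      (T x - B.P N (T x) - a • x) -
      (T (v1 B γ) - B.P N (T (v1 B γ)) - b • v1 B γ) := by
    simp only [map_add, smul_add, sub_smul]; abel
  have n1 : ‖(a - mu) • x + (b - mu) • v1 B γ‖ ≤ 3 * δ := by
    rw [e1]
    refine (norm_sub_le _ _).trans ?_
    have := norm_sub_le (T (x + v1 B γ) - B.P N (T (x + v1 B γ)) - mu • (x + v1 B γ))
      (T x - B.P N (T x) - a • x)
    linarith
  have n2 : ‖(a - mu) • x‖ ≤ 6 * δ := by
    have h1 : B.P q ((a - mu) • x + (b - mu) • v1 B γ) = (a - mu) • x := by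
      rw [map_add, map_smul, map_smul, hRV.2.2.1, B.P_of_P_zero g1 hq, smul_zero, add_zero]
    rw [← h1]
    refine (B.norm_P _ _).trans ?_
    linarith
  have n3 : ‖(b - mu) • v1 B γ‖ ≤ 9 * δ := by
    have h1 : (b - mu) • v1 B γ = ((a - mu) • x + (b - mu) • v1 B γ) - (a - mu) • x := by abel
    rw [h1]
    refine (norm_sub_le _ _).trans ?_
    linarith
  have n4 : ‖b - mu‖ ≤ 9 * δ := by
    have h1 : b - mu = B.co γ ((b - mu) • v1 B γ) 0 := by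
      rw [map_smul, g3, ZeroAtInftyContinuousMap.smul_apply, C0.e_apply, if_pos rfl, smul_eq_mul,
        mul_one]
    rw [h1]
    exact (norm_coord B _ _ _).trans n3
  have n5 : ‖lamc B T γ - b‖ ≤ 3 * δ := lamc_close B T hγ (by omega) hb
  have e2 : T x - B.P N (T x) - lamc B T γ • x = (T x - B.P N (T x) - a • x) +
      (a - mu) • x - ((b - mu) • x + (lamc B T γ - b) • x) := by
    simp only [sub_smul]; abel
  have hxC : ‖x‖ ≤ C := hRV.2.2.2.1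
  have n6 : ‖(b - mu) • x + (lamc B T γ - b) • x‖ ≤ 12 * δ * C := by
    refine (norm_add_le _ _).trans ?_
    rw [norm_smul, norm_smul]
    calc _ ≤ (9 * δ) * C + (3 * δ) * C := by gcongr
      _ = _ := by ring
  rw [e2]
  refine (norm_sub_le _ _).trans ?_
  have := norm_add_le (T x - B.P N (T x) - a • x) ((a - mu) • x)
  linarith

lemma lamc_cauchy (hD : D.Ok (V0 𝕜) (ok0 𝕜)) (B : BD D (V0 𝕜) X) (T : X →L[𝕜] X)
    {ε : ℝ} (hε : 0 < ε) : ∃ N, ∀ γ γ', γ ≠ 0 → γ' ≠ 0 → N ≤ D.wt γ → N ≤ D.wt γ' →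
      ‖lamc B T γ - lamc B T γ'‖ ≤ ε := by
  obtain ⟨N, hN⟩ := rapid_lam hD B T (C := 6) (by norm_num) (ε := ε / 6) (by positivity)
  refine ⟨N, fun γ γ' hγ hγ' hw hw' => ?_⟩
  obtain ⟨γ'', k1, k2, k3⟩ := exists_wt hD (fun _ => Or.inl rfl) N (max γ γ' + 1)
  have key : ∀ γ1, γ1 ≠ 0 → N ≤ D.wt γ1 → γ1 + 1 ≤ γ'' →
      ‖lamc B T γ1 - lamc B T γ''‖ ≤ ε / 2 := by
    intro γ1 h1 h2 h3
    have a1 := hN _ _ _ h2 (RV_v1 hD B h1) γ'' k2 h3 k3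
    have a2 := lamc_close B T h1 (h2.trans (hD.wt_le γ1 h1)) a1
    linarith
  have a1 := key γ hγ hw (by omega)
  have a2 := key γ' hγ' hw' (by omega)
  have : lamc B T γ - lamc B T γ' = (lamc B T γ - lamc B T γ'') -
      (lamc B T γ' - lamc B T γ'') := by ring
  rw [this]
  refine (norm_sub_le _ _).trans ?_
  linarith

/-- the scalar of an operator -/
lemma rapid_lim (hD : D.Ok (V0 𝕜) (ok0 𝕜)) (B : BD D (V0 𝕜) X) (T : X →L[𝕜] X) :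
    ∃ lam : 𝕜, ∀ C : ℝ, 0 ≤ C → ∀ ε : ℝ, 0 < ε → ∃ N, ∀ p q x, N ≤ p → B.RV C p q x →
      ‖T x - B.P N (T x) - lam • x‖ ≤ ε := by
  have hex : ∀ k : ℕ, ∃ γ, k ≤ γ ∧ γ ≠ 0 ∧ k ≤ D.wt γ := fun k =>
    exists_wt hD (fun _ => Or.inl rfl) k k
  choose g hg1 hg2 hg3 using hex
  have hcauchy : CauchySeq (fun k => lamc B T (g k)) := by
    rw [Metric.cauchySeq_iff]
    intro ε hε
    obtain ⟨N, hN⟩ := lamc_cauchy hD B T (half_pos hε)
    refine ⟨N, fun k hk l hl => ?_⟩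
    rw [dist_eq_norm]
    have := hN (g k) (g l) (hg2 k) (hg2 l) (hk.trans (hg3 k)) (hl.trans (hg3 l))
    linarith
  obtain ⟨lam, hlam⟩ := cauchySeq_tendsto_of_complete hcauchy
  have hclose : ∀ ε > 0, ∃ N, ∀ γ, γ ≠ 0 → N ≤ D.wt γ → ‖lamc B T γ - lam‖ ≤ ε := by
    intro ε hε
    obtain ⟨N, hN⟩ := lamc_cauchy hD B T hε
    refine ⟨N, fun γ hγ hw => ?_⟩
    have h1 : Tendsto (fun k => ‖lamc B T γ - lamc B T (g k)‖) atTop
        (𝓝 ‖lamc B T γ - lam‖) := (tendsto_const_nhds.sub hlam).norm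
    refine le_of_tendsto h1 ?_
    filter_upwards [eventually_ge_atTop N] with k hk
    exact hN γ (g k) hγ (hg2 k) hw (hk.trans (hg3 k))
  refine ⟨lam, fun C hC ε hε => ?_⟩
  obtain ⟨N1, hN1⟩ := rapid_lam hD B T hC (half_pos hε)
  obtain ⟨N2, hN2⟩ := hclose (ε / (2 * (C + 1))) (by positivity)
  refine ⟨N1, fun p q x hp hRV => ?_⟩
  obtain ⟨γ, k1, k2, k3⟩ := exists_wt hD (fun _ => Or.inl rfl) (max N1 N2) q
  have a1 := hN1 p q x hp hRV γ k2 k1 ((le_max_left _ _).trans k3)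
  have a2 := hN2 γ k2 ((le_max_right _ _).trans k3)
  have e1 : T x - B.P N1 (T x) - lam • x = (T x - B.P N1 (T x) - lamc B T γ • x) +
      (lamc B T γ - lam) • x := by simp only [sub_smul]; abel
  rw [e1]
  refine (norm_add_le _ _).trans ?_
  have hxC : ‖x‖ ≤ C := hRV.2.2.2.1
  have n1 : ‖(lamc B T γ - lam) • x‖ ≤ ε / 2 := by
    rw [norm_smul]
    calc _ ≤ ε / (2 * (C + 1)) * (C + 1) := by
          gcongr
          linarith
      _ = ε / 2 := by field_simp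
  linarith

/-- The main estimate: an operator is a multiple of the identity up to a small operator. -/
theorem tail_scalar (hD : D.Ok (V0 𝕜) (ok0 𝕜)) (B : BD D (V0 𝕜) X) (T : X →L[𝕜] X) :
    ∃ lam : 𝕜, ∀ ε : ℝ, 0 < ε → ∃ N, ∀ x, B.P N x = 0 →
      ‖T x - B.P N (T x) - lam • x‖ ≤ ε * ‖x‖ := by
  obtain ⟨lam, hlam⟩ := rapid_lim hD B T
  refine ⟨lam, fun ε hε => ?_⟩
  obtain ⟨l, hl⟩ := hlam 6 (by norm_num) (ε / 12) (by positivity)
  obtain ⟨N1, hN1⟩ := hlam (max 6 (2 / β l)) (le_max_of_le_left (by norm_num)) (ε / 12)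
    (by positivity)
  obtain ⟨N, hN⟩ : ∃ N, N = max l N1 := ⟨_, rfl⟩
  -- raising the index
  have raise : ∀ (M : ℕ) (z : X), M ≤ N → B.P N z = 0 →
      ‖T z - B.P M (T z) - lam • z‖ ≤ ε / 12 → ‖T z - B.P N (T z) - lam • z‖ ≤ ε / 4 := by
    intro M z hM hz h
    have e1 : T z - B.P N (T z) - lam • z = (T z - B.P M (T z) - lam • z) -
        B.P N (T z - B.P M (T z) - lam • z) := by
      rw [map_sub, map_sub, map_smul, hz, smul_zero, B.P_P, min_eq_right hM]; abel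
    rw [e1]
    exact (B.norm_sub_P _ _).trans (by linarith)
  have step1 : ∀ x q, N ≤ q → B.P N x = 0 → B.P q x = x → ‖x‖ ≤ 1 →
      ‖T x - B.P N (T x) - lam • x‖ ≤ ε / 2 := by
    intro x q hq hxN hx hx1
    obtain ⟨x1, x2, h1, h2, h3⟩ := B.split hD l N q hq hxN hx hx1
    have hN1' : B.P N x1 = 0 := h2.2.1
    have hN2' : B.P N x2 = 0 := by
      have : x2 = x - x1 := by rw [h1]; abel
      rw [this, map_sub, hxN, hN1', sub_zero]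
    have a1 := raise N1 x1 (by omega) hN1' (hN1 _ _ _ (by omega) h2)
    have a2 := raise l x2 (by omega) hN2' (hl _ _ _ (by omega) h3)
    have e1 : T x - B.P N (T x) - lam • x = (T x1 - B.P N (T x1) - lam • x1) +
        (T x2 - B.P N (T x2) - lam • x2) := by
      rw [h1]; simp only [map_add, smul_add]; abel
    rw [e1]
    refine (norm_add_le _ _).trans ?_
    linarith
  have step2 : ∀ x q, N ≤ q → B.P N x = 0 → B.P q x = x →
      ‖T x - B.P N (T x) - lam • x‖ ≤ ε / 2 * ‖x‖ := by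
    intro x q hq hxN hx
    by_cases h0 : ‖x‖ = 0
    · rw [norm_eq_zero] at h0; rw [h0]; simp
    · have hpos : 0 < ‖x‖ := lt_of_le_of_ne (norm_nonneg _) (Ne.symm h0)
      have h1 := step1 (((‖x‖ : ℝ) : 𝕜)⁻¹ • x) q hq (by rw [map_smul, hxN, smul_zero])
        (by rw [map_smul, hx]) (by
          rw [norm_smul, norm_inv, norm_realK, norm_norm, inv_mul_cancel₀ h0])
      have e1 : T (((‖x‖ : ℝ) : 𝕜)⁻¹ • x) - B.P N (T (((‖x‖ : ℝ) : 𝕜)⁻¹ • x)) -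
          lam • (((‖x‖ : ℝ) : 𝕜)⁻¹ • x) = ((‖x‖ : ℝ) : 𝕜)⁻¹ • (T x - B.P N (T x) - lam • x) := by
        simp only [map_smul, smul_sub]
        rw [smul_comm lam]
      rw [e1, norm_smul, norm_inv, norm_realK, norm_norm, inv_mul_le_iff₀ hpos] at h1
      linarith
  refine ⟨N, fun x hx => ?_⟩
  have hlim := B.P_tendsto x
  have h1 : Tendsto (fun q => ‖T (B.P q x) - B.P N (T (B.P q x)) - lam • B.P q x‖) atTop
      (𝓝 ‖T x - B.P N (T x) - lam • x‖) := by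
    refine Tendsto.norm (Tendsto.sub (Tendsto.sub ?_ ?_) ?_)
    · exact (T.continuous.tendsto x).comp hlim
    · exact (((B.P N).continuous.comp T.continuous).tendsto x).comp hlim
    · exact hlim.const_smul lam
  refine le_of_tendsto h1 ?_
  filter_upwards [eventually_ge_atTop N] with q hq
  have h2 := step2 (B.P q x) q hq (by
    rw [B.P_P, min_eq_left hq, hx]) (by rw [B.P_P, min_self])
  refine h2.trans ?_
  have := B.norm_P q x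
  calc ε / 2 * ‖B.P q x‖ ≤ ε / 2 * (2 * ‖x‖) := by gcongr
    _ = _ := by ring

end Pool.Agent.L0h84.RG
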