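import Pool.Agent.L0h84.RG.ClaimU
import Pool.Agent.L0h84.RG.C0G

/-! The ideal of small operators. -/

namespace Pool.Agent.L0h84.RG

open Filter Topology ZeroAtInfty Pool.Agent.R184CA Pool.Agent.R184CA.BD

variable {𝕜 : Type} [RCLike 𝕜]
variable {X : Type*} [NormedAddCommGroup X] [NormedSpace 𝕜 X]
variable {D : Nodes 𝕜 C₀(ℕ, 𝕜)} {B : BD D (V0 𝕜) X}

/-- operators which are essentially concentrated on initial segments -/
def Sm (B : BD D (V0 𝕜) X) {Z : Type*} [NormedAddCommGroup Z] [NormedSpace 𝕜 Z]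
    (T : Z →L[𝕜] X) : Prop :=
  ∀ ε : ℝ, 0 < ε → ∃ M, ∀ m, M ≤ m → ∀ x, ‖T x - B.P m (T x)‖ ≤ ε * ‖x‖

section basic

variable {Z : Type*} [NormedAddCommGroup Z] [NormedSpace 𝕜 Z]
variable {Z' : Type*} [NormedAddCommGroup Z'] [NormedSpace 𝕜 Z']

lemma Sm_of {T : Z →L[𝕜] X}
    (h : ∀ ε : ℝ, 0 < ε → ∃ M, ∀ x, ‖T x - B.P M (T x)‖ ≤ ε * ‖x‖) : Sm B T := by
  intro ε hε
  obtain ⟨M, hM⟩ := h (ε / 3) (by positivity)
  refine ⟨M, fun m hm x => ?_⟩
  have := norm_tail_le B hm (hM x)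
  linarith

lemma Sm.add {T S : Z →L[𝕜] X} (hT : Sm B T) (hS : Sm B S) : Sm B (T + S) := by
  intro ε hε
  obtain ⟨M, hM⟩ := hT (ε / 2) (by positivity)
  obtain ⟨N, hN⟩ := hS (ε / 2) (by positivity)
  refine ⟨max M N, fun m hm x => ?_⟩
  have h1 := hM m ((le_max_left _ _).trans hm) x
  have h2 := hN m ((le_max_right _ _).trans hm) x
  have e1 : (T + S) x - B.P m ((T + S) x) = (T x - B.P m (T x)) + (S x - B.P m (S x)) := by
    have : (T + S) x = T x + S x := rfl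
    rw [this, map_add]; abel
  rw [e1]
  refine (norm_add_le _ _).trans ?_
  linarith

lemma Sm.smul {T : Z →L[𝕜] X} (c : 𝕜) (hT : Sm B T) : Sm B (c • T) := by
  intro ε hε
  obtain ⟨M, hM⟩ := hT (ε / (‖c‖ + 1)) (by positivity)
  refine ⟨M, fun m hm x => ?_⟩
  have h1 := hM m hm x
  have e1 : (c • T) x - B.P m ((c • T) x) = c • (T x - B.P m (T x)) := by
    have : (c • T) x = c • T x := rfl
    rw [this, map_smul, smul_sub]
  rw [e1, norm_smul]
  calc _ ≤ ‖c‖ * (ε / (‖c‖ + 1) * ‖x‖) := by gcongr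
    _ ≤ (‖c‖ + 1) * (ε / (‖c‖ + 1) * ‖x‖) := by gcongr; linarith
    _ = _ := by field_simp

lemma Sm.comp_right {T : Z →L[𝕜] X} (hT : Sm B T) (S : Z' →L[𝕜] Z) : Sm B (T.comp S) := by
  intro ε hε
  obtain ⟨M, hM⟩ := hT (ε / (‖S‖ + 1)) (by positivity)
  refine ⟨M, fun m hm x => ?_⟩
  refine (hM m hm (S x)).trans ?_
  calc _ ≤ ε / (‖S‖ + 1) * ((‖S‖ + 1) * ‖x‖) := by
        gcongr
        refine (S.le_opNorm x).trans ?_
        gcongr
        linarith
    _ = _ := by field_simp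

end basic

/-- the embedding of the fibre at `γ` -/
lemma exists_iE (B : BD D (V0 𝕜) X) {γ : ℕ} (hγ : γ ≠ 0) :
    ∃ i : C₀(ℕ, 𝕜) →L[𝕜] X, (∀ h, i h = B.sv γ h) ∧ ∀ h, ‖i h‖ ≤ 2 * ‖h‖ :=
  ⟨LinearMap.mkContinuous
    { toFun := fun h => B.sv γ h
      map_add' := fun h h' => B.sv_add hγ (mem_V0 γ h) (mem_V0 γ h')
      map_smul' := fun c h => B.sv_smul hγ c (mem_V0 γ h) } 2
    (fun h => (B.sv_spec hγ (mem_V0 γ h)).2.2.2), fun _ => rfl,
    fun h => (B.sv_spec hγ (mem_V0 γ h)).2.2.2⟩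

lemma P_succ (B : BD D (V0 𝕜) X) {γ : ℕ} (hγ : γ ≠ 0) (x : X) :
    B.P (γ + 1) x = B.P γ x + B.sv γ (B.dd γ x) := by
  have h1 : B.P (γ + 1) x - B.P γ x = B.sv γ (B.dd γ x) := by
    refine B.sv_unique hγ (mem_V0 γ _) ?_ ?_ ?_
    · rw [map_sub, B.P_P, B.P_P, min_self, min_eq_left (Nat.le_succ γ), sub_self]
    · rw [map_sub, B.P_P, B.P_P, min_self, min_eq_right (Nat.le_succ γ)]
    · rw [map_sub, B.co_P _ _ _ (Nat.lt_succ_self γ)]
      unfold BD.dd
      rw [map_sub]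
  rw [← h1]; abel

/-- the coefficient operators -/
noncomputable def ddC (B : BD D (V0 𝕜) X) (γ : ℕ) : X →L[𝕜] C₀(ℕ, 𝕜) :=
  (B.co γ).comp (ContinuousLinearMap.id 𝕜 X - B.P γ)

lemma ddC_apply (B : BD D (V0 𝕜) X) (γ : ℕ) (x : X) : ddC B γ x = B.dd γ x := rfl

lemma P_one (B : BD D (V0 𝕜) X) (x : X) : B.P 1 x = 0 :=
  B.P_eq_zero_of_co fun γ hγ => by
    have : γ = 0 := by omega
    rw [this, B.co_zero]

/-- operators composed with the initial projections are small -/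
lemma Sm_comp_P (hD : D.Ok (V0 𝕜) (ok0 𝕜)) (B : BD D (V0 𝕜) X) (T : X →L[𝕜] X) (N : ℕ) :
    Sm B (T.comp (B.P N)) := by
  induction N with
  | zero =>
    intro ε hε
    refine ⟨0, fun m _ x => ?_⟩
    have : (T.comp (B.P 0)) x = T (B.P 0 x) := rfl
    rw [this, B.P_zero' hD, map_zero, map_zero, sub_zero, norm_zero]
    positivity
  | succ N ih =>
    rcases Nat.eq_zero_or_pos N with h0 | h0
    · intro ε hε
      refine ⟨0, fun m _ x => ?_⟩
      have : (T.comp (B.P (N + 1))) x = T (B.P (N + 1) x) := rfl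
      rw [this, h0, zero_add, P_one, map_zero, map_zero, sub_zero, norm_zero]
      positivity
    · obtain ⟨i, hi, -⟩ := exists_iE B h0.ne'
      have e1 : T.comp (B.P (N + 1)) = T.comp (B.P N) + (T.comp i).comp (ddC B N) := by
        ext1 x
        change T (B.P (N + 1) x) = T (B.P N x) + T (i (ddC B N x))
        rw [P_succ B h0.ne', map_add, hi, ddC_apply]
      rw [e1]
      refine ih.add (Sm.comp_right ?_ _)
      exact Sm_of fun ε hε => claimU hD B (T.comp i) hε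

lemma Sm.comp_left (hD : D.Ok (V0 𝕜) (ok0 𝕜)) {Z : Type*} [NormedAddCommGroup Z]
    [NormedSpace 𝕜 Z] {T : Z →L[𝕜] X} (hT : Sm B T) (S : X →L[𝕜] X) : Sm B (S.comp T) := by
  refine Sm_of fun ε hε => ?_
  obtain ⟨M, hM⟩ := hT (ε / (6 * (‖S‖ + 1))) (by positivity)
  obtain ⟨K, hK⟩ := Sm_comp_P hD B S M (ε / (2 * (‖T‖ + 1))) (by positivity)
  refine ⟨K, fun x => ?_⟩
  have h1 := hM M le_rfl x
  have h2 := hK K le_rfl (T x)
  have e1 : (S.comp T) x - B.P K ((S.comp T) x) =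
      ((S.comp (B.P M)) (T x) - B.P K ((S.comp (B.P M)) (T x))) +
      (S (T x - B.P M (T x)) - B.P K (S (T x - B.P M (T x)))) := by
    have a1 : (S.comp T) x = S (T x) := rfl
    have a2 : (S.comp (B.P M)) (T x) = S (B.P M (T x)) := rfl
    rw [a1, a2]
    simp only [map_sub]; abel
  rw [e1]
  have n1 : ε / (2 * (‖T‖ + 1)) * ‖T x‖ ≤ ε / 2 * ‖x‖ := by
    calc _ ≤ ε / (2 * (‖T‖ + 1)) * ((‖T‖ + 1) * ‖x‖) := by
          gcongr
          refine (T.le_opNorm x).trans ?_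
          gcongr
          linarith
      _ = _ := by field_simp
  have n2 : ‖S (T x - B.P M (T x)) - B.P K (S (T x - B.P M (T x)))‖ ≤ ε / 2 * ‖x‖ := by
    refine (B.norm_sub_P K _).trans ?_
    calc 3 * ‖S (T x - B.P M (T x))‖ ≤ 3 * ((‖S‖ + 1) * (ε / (6 * (‖S‖ + 1)) * ‖x‖)) := by
          gcongr
          refine (S.le_opNorm _).trans ?_
          gcongr
          linarith
      _ = _ := by field_simp; ring
  refine (norm_add_le _ _).trans ?_
  linarith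

/-- every operator is a multiple of the identity plus a small operator -/
theorem exists_scalar (hD : D.Ok (V0 𝕜) (ok0 𝕜)) (B : BD D (V0 𝕜) X) (T : X →L[𝕜] X) :
    ∃ lam : 𝕜, Sm B (T - lam • (1 : X →L[𝕜] X)) := by
  obtain ⟨lam, hlam⟩ := tail_scalar hD B T
  refine ⟨lam, Sm_of fun ε hε => ?_⟩
  obtain ⟨N, hN⟩ := hlam (ε / 18) (by positivity)
  obtain ⟨K, hK⟩ := Sm_comp_P hD B (T - lam • (1 : X →L[𝕜] X)) N (ε / 2) (by positivity)
  have hTa : ∀ x, (T - lam • (1 : X →L[𝕜] X)) x = T x - lam • x := fun _ => rfl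
  refine ⟨max K N, fun x => ?_⟩
  have h1 := hK (max K N) (le_max_left _ _) x
  have hz : B.P N (x - B.P N x) = 0 := by rw [map_sub, B.P_P, min_self, sub_self]
  have h2 := hN _ hz
  obtain ⟨z, hz'⟩ : ∃ z, z = x - B.P N x := ⟨_, rfl⟩
  rw [← hz'] at hz h2
  have h3 : ‖(T z - lam • z) - B.P (max K N) (T z - lam • z)‖ ≤ ε / 2 * ‖x‖ := by
    have e2 : (T z - lam • z) - B.P (max K N) (T z - lam • z) =
        (T z - B.P N (T z) - lam • z) - B.P (max K N) (T z - B.P N (T z) - lam • z) := by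
      simp only [map_sub]
      rw [B.P_P, min_eq_right (le_max_right K N)]; abel
    rw [e2]
    refine (B.norm_sub_P _ _).trans ?_
    have n1 : ‖z‖ ≤ 3 * ‖x‖ := by rw [hz']; exact B.norm_sub_P N x
    calc 3 * ‖T z - B.P N (T z) - lam • z‖ ≤ 3 * (ε / 18 * (3 * ‖x‖)) := by
          gcongr
          exact h2.trans (by gcongr)
      _ = _ := by ring
  have e1 : (T - lam • (1 : X →L[𝕜] X)) x - B.P (max K N) ((T - lam • (1 : X →L[𝕜] X)) x) =
      (((T - lam • (1 : X →L[𝕜] X)).comp (B.P N)) x -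
        B.P (max K N) (((T - lam • (1 : X →L[𝕜] X)).comp (B.P N)) x)) +
      ((T z - lam • z) - B.P (max K N) (T z - lam • z)) := by
    have a2 : ((T - lam • (1 : X →L[𝕜] X)).comp (B.P N)) x =
      T (B.P N x) - lam • B.P N x := rfl
    rw [hTa, a2, hz']
    simp only [map_sub, map_smul, smul_sub]; abel
  rw [e1]
  refine (norm_add_le _ _).trans ?_
  linarith

/-- multiples of the identity are not small -/
lemma not_Sm_one (B : BD D (V0 𝕜) X) : ¬ Sm B (1 : X →L[𝕜] X) := by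
  intro h
  obtain ⟨M, hM⟩ := h (1 / 4) (by norm_num)
  obtain ⟨g1, g2, g3, g4⟩ := v1_spec B (Nat.succ_ne_zero M)
  have h1 := hM (M + 1) (Nat.le_succ M) (v1 B (M + 1))
  have h2 : (1 : X →L[𝕜] X) (v1 B (M + 1)) = v1 B (M + 1) := rfl
  rw [h2, g1, sub_zero] at h1
  have h3 : (1 : ℝ) ≤ ‖v1 B (M + 1)‖ := by
    have := norm_coord B (M + 1) 0 (v1 B (M + 1))
    rw [g3, C0.e_apply, if_pos rfl, norm_one] at this
    exact this
  linarith

lemma eq_zero_of_Sm {c : 𝕜} (h : Sm B (c • (1 : X →L[𝕜] X))) : c = 0 := by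
  by_contra hc
  have h1 := h.smul c⁻¹
  rw [smul_smul, inv_mul_cancel₀ hc, one_smul] at h1
  exact not_Sm_one B h1

/-- idempotents -/
theorem Sm_or (hD : D.Ok (V0 𝕜) (ok0 𝕜)) (B : BD D (V0 𝕜) X) (Q : X →L[𝕜] X)
    (hQ : Q * Q = Q) : Sm B Q ∨ Sm B (1 - Q) := by
  obtain ⟨lam, hS⟩ := exists_scalar hD B Q
  obtain ⟨S, hSdef⟩ : ∃ S, S = Q - lam • (1 : X →L[𝕜] X) := ⟨_, rfl⟩
  rw [← hSdef] at hS
  have hQS : Q = S + lam • (1 : X →L[𝕜] X) := by rw [hSdef]; abel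
  have h1 : Sm B ((lam - lam ^ 2) • (1 : X →L[𝕜] X)) := by
    have e1 : (lam - lam ^ 2) • (1 : X →L[𝕜] X) = S * S + (2 * lam - 1) • S := by
      have h2 : (S + lam • (1 : X →L[𝕜] X)) * (S + lam • (1 : X →L[𝕜] X)) =
        S + lam • (1 : X →L[𝕜] X) := by rw [← hQS]; exact hQ
      have h3 : (S + lam • (1 : X →L[𝕜] X)) * (S + lam • (1 : X →L[𝕜] X)) =
          S * S + (2 * lam) • S + (lam ^ 2) • (1 : X →L[𝕜] X) := by
        rw [add_mul, mul_add, mul_add, smul_mul_assoc, smul_mul_assoc, mul_smul_comm,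
          mul_smul_comm, mul_one, one_mul, one_mul, smul_smul, pow_two, two_mul, add_smul]
        abel
      rw [h3] at h2
      have h4 : S * S = S + lam • (1 : X →L[𝕜] X) - (2 * lam) • S -
          (lam ^ 2) • (1 : X →L[𝕜] X) := by
        rw [← h2]; abel
      rw [h4, sub_smul, sub_smul, one_smul]
      abel
    rw [e1]
    exact (hS.comp_left hD S).add (hS.smul _)
  have h2 := eq_zero_of_Sm h1
  have h3 : lam * (1 - lam) = 0 := by rw [← h2]; ring
  rcases mul_eq_zero.1 h3 with h4 | h4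
  · left
    rw [hQS, h4, zero_smul, add_zero]; exact hS
  · right
    have h5 : lam = 1 := (sub_eq_zero.1 h4).symm
    have h6 : 1 - Q = (-1 : 𝕜) • S := by
      rw [hQS, h5, one_smul, neg_one_smul]; abel
    rw [h6]; exact hS.smul _

end Pool.Agent.L0h84.RG
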